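import Pool.Agent.W761.CB.Stm0

/-!
# Condensation in the continuum: statements of the parts

Each `S_...` is the exact statement of one part of the proof.
-/

set_option autoImplicit false

open MeasureTheory
open scoped ENNReal

namespace Pool.Agent.W761.CB

noncomputable section

/-! ## Weyl operators -/

/-- the displacement with coordinates `s` -/
def wv {X I : Type} [Fintype I] (u : I → X → ℝ) (κ : ℝ) (s : I × Bool → ℝ) (x : X) : ℂ :=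
  ∑ i, (κ : ℂ) * ((s (i, false) : ℂ) + Complex.I * (s (i, true) : ℂ)) * (u i x : ℂ)

/-- bounds and measurability -/
def S_W1 : Prop := ∀ (X : Type) [MeasurableSpace X] (ν : Measure X) [IsFiniteMeasure ν],
  (∀ F : Multiset X → ℂ, EB F → ∀ K : ℝ, ∃ C c : ℝ, 0 ≤ C ∧ 1 ≤ c ∧
    ∀ w : X → ℂ, Measurable w → (∀ x, ‖w x‖ ≤ K) →
      EB (PP w F) ∧ EB (QQ ν w F) ∧ EB (DD ν w F) ∧ ∀ S, ‖DD ν w F S‖ ≤ C * c ^ Multiset.card S) ∧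
  (∀ (P : Type) [MeasurableSpace P] (w : P → X → ℂ) (F : Multiset X → ℂ),
    Measurable (fun q : P × X => w q.1 q.2) → EB F →
    Measurable fun q : P × Cf X => DD ν (w q.1) F (ms q.2))

/-- the Weyl operators are isometries -/
def S_W2 : Prop := ∀ (X : Type) [MeasurableSpace X] (ν : Measure X) [IsFiniteMeasure ν]
    (w : X → ℂ) (F : Multiset X → ℂ), Measurable w → (∃ K : ℝ, ∀ x, ‖w x‖ ≤ K) → EB F →
  nE ν (DD ν w F) = nE ν F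

/-- the Weyl operators are linear and shift the annihilation operators -/
def S_W3 : Prop := ∀ (X : Type) [MeasurableSpace X] (ν : Measure X) [IsFiniteMeasure ν]
    (w : X → ℂ) (F G : Multiset X → ℂ), Measurable w → (∃ K : ℝ, ∀ x, ‖w x‖ ≤ K) →
    EB F → EB G →
  (∀ a b : ℂ, DD ν w (fun S => a * F S + b * G S) =
    fun S => a * DD ν w F S + b * DD ν w G S) ∧
  (∀ x, an x (DD ν w F) = DD ν w (fun S => F (x ::ₘ S) + w x * F S)) ∧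
  (∀ g : X → ℝ, Measurable g → (∃ C : ℝ, ∀ x, |g x| ≤ C) →
    ag ν g (DD ν w F) = DD ν w (fun S => ag ν g F S + (∫ x, (g x : ℂ) * w x ∂ν) * F S))

/-- derivatives of the Weyl operators -/
def S_DER : Prop := ∀ (X : Type) [MeasurableSpace X] (ν : Measure X) [IsFiniteMeasure ν]
    (I : Type) [Fintype I] [DecidableEq I] (u : I → X → ℝ) (κ : ℝ) (F : Multiset X → ℂ)
    (S : Multiset X), (∀ i, Measurable (u i)) → (∀ i x, |u i x| ≤ 1) → EB F →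
  ∃ G : I × Bool → (I × Bool → ℝ) → ℂ,
    (∀ j s, HasDerivAt (fun t : ℝ => DD ν (wv u κ (Function.update s j t)) F S) (G j s) (s j)) ∧
    (∀ j, Measurable (G j)) ∧
    (∀ R : ℝ, ∃ C : ℝ, ∀ j s, (∀ j', |s j'| ≤ R) → ‖G j s‖ ≤ C) ∧
    ∀ i s, G (i, false) s + Complex.I * G (i, true) s =
      κ * ((∫ x, (u i x : ℂ) * wv u κ s x ∂ν) * DD ν (wv u κ s) F S -
        2 * ag ν (u i) (DD ν (wv u κ s) F) S)

/-! ## Fourier series on the cube -/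

/-- the cube `(-1/2, 1/2]^d` -/
def bx (d : Type) : Set (d → ℝ) := Set.pi Set.univ fun _ => Set.Ioc (-(1 / 2)) (1 / 2)

/-- the character -/
def ek {d : Type} [Fintype d] (k : d → ℤ) (s : d → ℝ) : ℂ :=
  Complex.exp (-(2 * Real.pi * Complex.I * ∑ j, (k j : ℂ) * (s j : ℂ)))

/-- the window -/
def win {d : Type} [Fintype d] (s : d → ℝ) : ℝ := ∏ j, (√(15 / 8) * (1 - 4 * s j ^ 2))

/-- the derivative of the window -/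
def dwin {d : Type} [Fintype d] [DecidableEq d] (j : d) (s : d → ℝ) : ℝ :=
  (√(15 / 8) * (-8 * s j)) * ∏ j' ∈ Finset.univ.erase j, (√(15 / 8) * (1 - 4 * s j' ^ 2))

/-- multiplication of the displacement by `i` -/
def rot {I : Type} (s : I × Bool → ℝ) : I × Bool → ℝ := fun j =>
  if j.2 = true then s (j.1, false) else -s (j.1, true)

/-- Parseval -/
def S_PAR : Prop := ∀ (d : Type) [Fintype d] (H : (d → ℝ) → ℂ), Measurable H →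
  (∃ C : ℝ, ∀ s ∈ bx d, ‖H s‖ ≤ C) →
  ∑' k : d → ℤ, ‖∫ s in bx d, ek k s * H s‖ₑ ^ 2 = ∫⁻ s in bx d, ‖H s‖ₑ ^ 2

/-- integral of a partial derivative -/
def S_IBP : Prop := ∀ (d : Type) [Fintype d] [DecidableEq d] (j : d) (H G : (d → ℝ) → ℂ),
  Measurable H → Measurable G →
  (∃ C : ℝ, ∀ s, (∀ i, |s i| ≤ 1 / 2) → ‖H s‖ ≤ C ∧ ‖G s‖ ≤ C) →
  (∀ s, HasDerivAt (fun t : ℝ => H (Function.update s j t)) (G s) (s j)) →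
  (∀ s, (s j = 1 / 2 ∨ s j = -(1 / 2)) → H s = 0) →
  ∫ s in bx d, G s = 0

/-- the window -/
def S_WIN : Prop := ∀ (I : Type) [Fintype I] [DecidableEq I],
  (∫⁻ s in bx (I × Bool), ENNReal.ofReal (win s ^ 2) = 1) ∧
  (∀ a : I → ℝ, ∫⁻ s in bx (I × Bool), ENNReal.ofReal (win s ^ 2) *
      ‖∑ i, (a i : ℂ) * ((s (i, false) : ℂ) + Complex.I * (s (i, true) : ℂ))‖ₑ ^ 2 =
    ENNReal.ofReal ((∑ i, a i ^ 2) / 14)) ∧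
  (∀ Φ : (I × Bool → ℝ) → ℝ≥0∞, Measurable Φ →
    ∫⁻ s in bx (I × Bool), ENNReal.ofReal (win s ^ 2) * Φ (rot s) =
      ∫⁻ s in bx (I × Bool), ENNReal.ofReal (win s ^ 2) * Φ s) ∧
  (∀ j : I × Bool, ∫⁻ s in bx (I × Bool), ENNReal.ofReal (dwin j s ^ 2) = 10) ∧
  (∀ (j : I × Bool) (s : I × Bool → ℝ),
    HasDerivAt (fun t : ℝ => win (Function.update s j t)) (dwin j s) (s j)) ∧
  (∀ (j : I × Bool) (s : I × Bool → ℝ), (s j = 1 / 2 ∨ s j = -(1 / 2)) → win s = 0) ∧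
  (∀ s : I × Bool → ℝ, (∀ j, |s j| ≤ 1 / 2) →
    |win s| ≤ 2 ^ (2 * Fintype.card I) ∧ ∀ j, |dwin j s| ≤ 8 * 2 ^ (2 * Fintype.card I))

/-- the measurement -/
def S_MEAS : Prop := ∀ (X : Type) [MeasurableSpace X] (ν : Measure X) [IsFiniteMeasure ν]
    (I : Type) [Fintype I] (u : I → X → ℝ) (ω M : ℝ), 0 < ω →
  (∀ i, Measurable (u i)) → (∀ i x, 0 ≤ u i x) → (∀ x, ∑ i, u i x = 1) →
  (∀ i, ∫ x, u i x ∂ν = M) →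
  ∃ (A : Type) (_ : Countable A) (L : A → (Multiset X → ℂ) → Multiset X → ℂ) (c : A → I → ℂ),
    IsIns ν u ω M L c

/-! ## The chain of scales -/

/-- one step of the chain -/
def S_STEP : Prop := ∀ (X : Type) [MeasurableSpace X] (ν : Measure X) [IsFiniteMeasure ν]
    (I I' : Type) [Fintype I] [Fintype I'] (en : (Multiset X → ℂ) → ℝ≥0∞)
    (u : I → X → ℝ) (u' : I' → X → ℝ) (h : I' → I → ℝ)
    (ω M M' g a b δ e N Nhi E R' B' : ℝ) (A : Type) [Countable A]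
    (L : A → (Multiset X → ℂ) → Multiset X → ℂ) (c : A → I → ℂ),
  (∀ i, Measurable (u i)) → (∀ i x, 0 ≤ u i x) → (∀ x, ∑ i, u i x = 1) →
  (∀ i, ∫ x, u i x ∂ν = M) →
  (∀ i', Measurable (u' i')) → (∀ i' x, 0 ≤ u' i' x) → (∀ i' x, u' i' x ≤ 1) →
  (∀ i', ∫ x, u' i' x ∂ν = M') →
  (∀ i' x, u' i' x = ∑ i, h i' i * u i x) → (∀ i' i, 0 ≤ h i' i) → (∀ i, ∑ i', h i' i = 1) →
  0 < ω → 0 < g → 0 ≤ a → 0 ≤ b → 0 ≤ δ → 0 ≤ e → 0 ≤ N → 0 ≤ Nhi → 0 ≤ E → 0 ≤ R' → 0 ≤ B' →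
  (∀ F, EB F → en (absv F) + ENNReal.ofReal g * ∑ i', nE ν (ag ν (u' i') (absv F)) ≤
    en F + ENNReal.ofReal g * ∑ i', nE ν (ag ν (u' i') F)) →
  (∀ F, EB F → ENNReal.ofReal δ * nuE ν F ≤ en F + ENNReal.ofReal e * nE ν F) →
  IsIns ν u ω M L c →
  (∀ F, EB F → ∑' α, en (L α F) ≤
    en F + ENNReal.ofReal a * nuE ν F + ENNReal.ofReal b * nE ν F) →
  HasEns ν en u' N Nhi E R' B' →
  HasEns ν en u N (Nhi + ω * (ν Set.univ).toReal) (E + a * Nhi + b) (1 / ω + M ^ 2 * ω)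
    (B' + Fintype.card I' * √(R' + ω * M' ^ 2) + Fintype.card I * √(1 / ω + M ^ 2 * ω) +
      √(Fintype.card I' * (E + a * Nhi + b + e - δ * N) / g))

/-- the first measurement -/
def S_BASE : Prop := ∀ (X : Type) [MeasurableSpace X] (ν : Measure X) [IsFiniteMeasure ν]
    (I : Type) [Fintype I] (en : (Multiset X → ℂ) → ℝ≥0∞) (u : I → X → ℝ)
    (ω a b N E Q : ℝ) (A : Type) [Countable A]
    (L : A → (Multiset X → ℂ) → Multiset X → ℂ) (c : A → I → ℂ) (ψ : Multiset X → ℂ),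
  Fintype.card I = 1 → (∀ i x, u i x = 1) →
  0 < ω → 0 ≤ a → 0 ≤ b → 0 ≤ N → 0 ≤ E → 0 ≤ Q →
  EB ψ → nE ν ψ = 1 → nuE ν ψ = ENNReal.ofReal N → en ψ ≤ ENNReal.ofReal E →
  nE ν (ag ν (fun _ => 1) ψ) ≤ ENNReal.ofReal Q →
  IsIns ν u ω (ν Set.univ).toReal L c →
  (∀ F, EB F → ∑' α, en (L α F) ≤
    en F + ENNReal.ofReal a * nuE ν F + ENNReal.ofReal b * nE ν F) →
  HasEns ν en u N (N + ω * (ν Set.univ).toReal) (E + a * N + b)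
    (1 / ω + (ν Set.univ).toReal ^ 2 * ω)
    (√(Q + ω * (ν Set.univ).toReal ^ 2) + √(1 / ω + (ν Set.univ).toReal ^ 2 * ω))

/-- the last scale -/
def S_BOT : Prop := ∀ (X : Type) [MeasurableSpace X] (ν : Measure X) [IsFiniteMeasure ν]
    (I : Type) [Fintype I] (en : (Multiset X → ℂ) → ℝ≥0∞) (u : I → X → ℝ)
    (M K' P Tl N Nhi E R B : ℝ),
  (∀ i, Measurable (u i)) → (∀ i x, 0 ≤ u i x) → (∀ i x, u i x ≤ 1) →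
  (∀ i, ∫ x, u i x ∂ν = M) → 0 < M → 0 < K' → 1 ≤ K' * M → 0 ≤ P → 0 ≤ Tl → 0 ≤ N → 0 ≤ E →
  0 ≤ R → 0 ≤ B →
  (∀ F, EB F → ENNReal.ofReal M * nuE ν F ≤
    ∑ i, nE ν (ag ν (u i) F) + ENNReal.ofReal (M * P) * en F) →
  (∀ F, EB F → ∑ i, tl ν (u i) (K' * M) F ≤ ENNReal.ofReal Tl * en F) →
  HasEns ν en u N Nhi E R B →
  N ≤ (P + 16 * Tl) * E + 12 * Fintype.card I * R / M + 7 * √K' * B

/-! ## The diamagnetic inequality -/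

/-- general form -/
def S_DIA0 : Prop := ∀ (X : Type) [MeasurableSpace X] (ν : Measure X) [IsFiniteMeasure ν]
    (F : Multiset X → ℂ), EB F →
  nE ν (absv F) = nE ν F ∧ nuE ν (absv F) = nuE ν F ∧
  (∀ x y, nE ν (an y (an x (absv F))) = nE ν (an y (an x F))) ∧
  ∃ b : X → X → ℝ≥0∞, Measurable (fun p : X × X => b p.1 p.2) ∧
    (∀ x y, dE ν F x y = dE ν (absv F) x y + 2 * b x y) ∧
    ∀ u : X → ℝ, Measurable u → (∀ x, 0 ≤ u x) → (∃ C : ℝ, ∀ x, u x ≤ C) →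
      nE ν (ag ν u (absv F)) = nE ν (ag ν u F) +
        ∫⁻ x, ∫⁻ y, ENNReal.ofReal (u x * u y) * b x y ∂ν ∂ν

/-- on the torus -/
def S_DIA : Prop := ∀ (n : ℕ) (L : ℝ) [Fact (0 < L)] (μ : ℝ≥0∞) (K : (Fin n → ℝ) → ℝ≥0∞)
    (v : ℝ → ℝ≥0∞) (I : Type) [Fintype I] (u : I → Tor n L → ℝ) (g : ℝ),
  Measurable K → Measurable v → 0 ≤ g → (∀ i, Measurable (u i)) → (∀ i x, 0 ≤ u i x) →
  (∀ i x, u i x ≤ 1) →
  (∀ b : Tor n L → Tor n L → ℝ≥0∞, Measurable (fun p : Tor n L × Tor n L => b p.1 p.2) →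
    ENNReal.ofReal g * ∫⁻ x, ∫⁻ y, (∑ i, ENNReal.ofReal (u i x * u i y)) * b x y ≤
      ∫⁻ z, K z * ∫⁻ x, b (x + pr L z) x) →
  ∀ F : Multiset (Tor n L) → ℂ, EB F →
    en μ K v (absv F) + ENNReal.ofReal g * ∑ i, nE volume (ag volume (u i) (absv F)) ≤
      en μ K v F + ENNReal.ofReal g * ∑ i, nE volume (ag volume (u i) F)

/-! ## The torus -/

/-- basic facts -/
def S_TF : Prop := ∀ (n : ℕ) (L : ℝ) [Fact (0 < L)],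
  (volume (Set.univ : Set (Tor n L)) = ENNReal.ofReal (L ^ n)) ∧
  Measurable (pr (n := n) L) ∧
  (∀ z z' : Fin n → ℝ, pr L (z + z') = pr L z + pr L z') ∧
  (∀ f : Tor n L → ℝ≥0∞, Measurable f →
    ∫⁻ x, f x = ∫⁻ z in {z : Fin n → ℝ | ∀ c, -(L / 2) < z c ∧ z c ≤ L / 2}, f (pr L z)) ∧
  (∀ f : Tor n L → ℝ≥0∞, Measurable f → ∀ h, ∫⁻ x, f (x + h) = ∫⁻ x, f x) ∧
  (∀ z : Fin n → ℝ, (∀ c, |z c| ≤ L / 2) → ∀ c, ‖pr L z c‖ = |z c|) ∧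
  (∀ x : Tor n L, ∃ z : Fin n → ℝ, (∀ c, |z c| = ‖x c‖ ∧ |z c| ≤ L / 2) ∧ x = pr L z) ∧
  (∀ v : ℝ → ℝ≥0∞, Measurable v → Measurable (fun p : Tor n L × Tor n L => v (tdist p.1 p.2)) ∧
    ∀ x : Tor n L, ∫⁻ y, v (tdist x y) ≤ ∫⁻ z : Fin n → ℝ, v (el z))

/-- the increase of the energy by a measurement -/
def S_DE : Prop := ∀ (n : ℕ) (L : ℝ) [Fact (0 < L)] (μ : ℝ≥0∞) (K : (Fin n → ℝ) → ℝ≥0∞)
    (v : ℝ → ℝ≥0∞) (I : Type) [Fintype I] (u : I → Tor n L → ℝ) (ω M x v₁ : ℝ)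
    (s : (Fin n → ℝ) → ℝ) (A : Type) [Countable A]
    (Lα : A → (Multiset (Tor n L) → ℂ) → Multiset (Tor n L) → ℂ) (c : A → I → ℂ),
  Measurable K → Measurable v → Measurable s → 0 < ω → 0 ≤ x → 0 ≤ v₁ → (∀ z, 0 ≤ s z) →
  IsIns volume u ω M Lα c →
  ∫⁻ z : Fin n → ℝ, v (el z) ≤ ENNReal.ofReal v₁ →
  (∀ (x : Tor n L) (z : Fin n → ℝ), ∑ i, (u i (x + pr L z) - u i x) ^ 2 ≤ s z) →
  μ * (∑ c : Fin n, ⨆ k : ℕ, 4 ^ k * ENNReal.ofReal (s (Pi.single c ((2 : ℝ)⁻¹ ^ k)))) +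
    2⁻¹ * ∫⁻ z, K z * ENNReal.ofReal (s z) ≤ ENNReal.ofReal x →
  ∀ F : Multiset (Tor n L) → ℂ, EB F →
    ∑' α, en μ K v (Lα α F) ≤ en μ K v F + ENNReal.ofReal (2 * ω * v₁) * nuE volume F +
      ENNReal.ofReal ((25 * ω ^ 2 * v₁ + ω * x) * L ^ n) * nE volume F

/-! ## The weights -/

/-- elementary properties of the hat functions -/
def S_HAT : Prop := ∀ (n : ℕ) (L ℓ : ℝ) [Fact (0 < L)] (m : ℕ), 1 ≤ m → L = m * ℓ →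
  (∀ i : Fin n → ℕ, Measurable (hat n L ℓ i)) ∧
  (∀ (i : Fin n → ℕ) (x : Tor n L), 0 ≤ hat n L ℓ i x ∧ hat n L ℓ i x ≤ 1) ∧
  (∀ x : Tor n L, ∑ i : Fin n → Fin m, hat n L ℓ (fun c => (i c : ℕ)) x = 1) ∧
  (∀ i : Fin n → ℕ, ∫ x : Tor n L, hat n L ℓ i x = ℓ ^ n) ∧
  (m = 1 → ∀ (i : Fin n → ℕ) (x : Tor n L), hat n L ℓ i x = 1)

/-- refinement -/
def S_REF : Prop := ∀ (n : ℕ) (L ℓ : ℝ) [Fact (0 < L)] (m : ℕ), 1 ≤ m → L = (2 * m : ℕ) * ℓ →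
  ∃ h : (Fin n → Fin m) → (Fin n → Fin (2 * m)) → ℝ,
    (∀ i' i, 0 ≤ h i' i) ∧ (∀ i, ∑ i', h i' i = 1) ∧
    ∀ (i' : Fin n → Fin m) (x : Tor n L),
      hat n L (2 * ℓ) (fun c => (i' c : ℕ)) x = ∑ i, h i' i * hat n L ℓ (fun c => (i c : ℕ)) x

/-- smoothness -/
def S_SM : Prop := ∀ (n : ℕ) (L ℓ : ℝ) [Fact (0 < L)] (m : ℕ), 1 ≤ m → L = m * ℓ →
  ∀ (x : Tor n L) (z : Fin n → ℝ),
    ∑ i : Fin n → Fin m, (hat n L ℓ (fun c => (i c : ℕ)) (x + pr L z) -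
      hat n L ℓ (fun c => (i c : ℕ)) x) ^ 2 ≤ 16 * (min 1 ((∑ c, |z c|) / ℓ)) ^ 2

/-- supports -/
def S_SUP : Prop := ∀ (n : ℕ) (L ℓ : ℝ) [Fact (0 < L)] (m : ℕ), 1 ≤ m → L = m * ℓ →
  ∀ (i : Fin n → ℕ) (x y : Tor n L), hat n L ℓ i x * hat n L ℓ i y ≠ 0 →
    ∀ c, ‖x c - y c‖ ≤ 2 * ℓ

/-- lower bound of the kernel in terms of the weights -/
def S_GK : Prop := ∀ (n : ℕ) (L ℓ : ℝ) [Fact (0 < L)] (m : ℕ) (K : (Fin n → ℝ) → ℝ≥0∞) (g : ℝ),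
  1 ≤ m → L = m * ℓ → Measurable K → 0 ≤ g →
  (∀ z : Fin n → ℝ, (∀ c, |z c| ≤ 2 * ℓ) → ENNReal.ofReal g ≤ K z) →
  ∀ b : Tor n L → Tor n L → ℝ≥0∞, Measurable (fun p : Tor n L × Tor n L => b p.1 p.2) →
    ENNReal.ofReal g * ∫⁻ x, ∫⁻ y, (∑ i : Fin n → Fin m, ENNReal.ofReal
      (hat n L ℓ (fun c => (i c : ℕ)) x * hat n L ℓ (fun c => (i c : ℕ)) y)) * b x y ≤
      ∫⁻ z, K z * ∫⁻ x, b (x + pr L z) x

/-! ## Coherence and transience -/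

/-- fibres of the kinetic energy -/
def S_FIB : Prop := ∀ (n : ℕ) (L : ℝ) [Fact (0 < L)] (μ : ℝ≥0∞) (K : (Fin n → ℝ) → ℝ≥0∞),
  Measurable K → ∀ F : Multiset (Tor n L) → ℂ, EB F →
    ∫⁻ γ, ken1 μ K (fun x => F (x ::ₘ ms γ)) ∂(lam (volume : Measure (Tor n L))) = ken μ K F

/-- Poincare inequality for many particles -/
def S_PO2 : Prop := ∀ (n : ℕ) (L m C : ℝ) [Fact (0 < L)] (μ : ℝ≥0∞) (K : (Fin n → ℝ) → ℝ≥0∞),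
  Measurable K → 0 ≤ C → PO n L m C μ K → ∀ F : Multiset (Tor n L) → ℂ, EB F →
  ∀ r : ℝ, 1 ≤ r → r ≤ L → ∫⁻ z in cube n r, ∫⁻ x, dE volume F (x + pr L z) x ≤
    ENNReal.ofReal (C * r ^ (n + m)) * ken μ K F

/-- coherence of the vectors of small kinetic energy -/
def S_COH : Prop := ∀ (n : ℕ) (L ℓ m C : ℝ) [Fact (0 < L)] (q : ℕ) (μ : ℝ≥0∞)
    (K : (Fin n → ℝ) → ℝ≥0∞), Measurable K → 0 ≤ C → PO n L m C μ K → 2 ≤ q → L = q * ℓ →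
  1 ≤ 2 * ℓ → ∀ F : Multiset (Tor n L) → ℂ, EB F →
    ENNReal.ofReal (ℓ ^ n) * nuE volume F ≤
      ∑ i : Fin n → Fin q, nE volume (ag volume (hat n L ℓ (fun c => (i c : ℕ))) F) +
        ENNReal.ofReal (ℓ ^ n * (C * 2 ^ (n + m) * ℓ ^ m)) * ken μ K F

open Classical in
/-- blocks -/
def S_BLK : Prop := ∀ (n : ℕ) (L b : ℝ) [Fact (0 < L)] (q : ℕ), 1 ≤ q → L = q * b →
  (∀ i : Fin n → ℕ, MeasurableSet (blk n L b i)) ∧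
  (∀ x : Tor n L, ∃! i : Fin n → Fin q, x ∈ blk n L b (fun c => (i c : ℕ))) ∧
  (∀ (i : Fin n → ℕ) (x y : Tor n L), x ∈ blk n L b i → y ∈ blk n L b i →
    ∃ z : Fin n → ℝ, (∀ c, |z c| < b) ∧ y = x + pr L z) ∧
  (∀ i : Fin n → ℕ, volume (blk n L b i) ≤ ENNReal.ofReal (b ^ n)) ∧
  (∀ (x : Tor n L) (k : ℕ), ((Finset.univ.filter fun i : Fin n → Fin q =>
      ∃ y ∈ blk n L b (fun c => (i c : ℕ)), ∃ z : Fin n → ℝ, (∀ c, |z c| ≤ k * b) ∧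
        y = x + pr L z).card : ℝ) ≤ (2 * k + 2) ^ n)

/-- the transience lemma for one function -/
def S_LA1 : Prop := ∀ (n : ℕ) (m C : ℝ) (v : ℝ → ℝ≥0∞), 1 ≤ n → 0 < m → m < n → 0 ≤ C →
  Measurable v → ∫⁻ z : Fin n → ℝ, v (el z) ≠ 0 →
  ∃ CA b₀ : ℝ, 0 ≤ CA ∧ 1 ≤ b₀ ∧ ∀ (L b : ℝ) [Fact (0 < L)] (q : ℕ) (μ : ℝ≥0∞)
    (K : (Fin n → ℝ) → ℝ≥0∞), b₀ ≤ b → L = q * b → 8 ≤ q → Measurable K → PO n L m C μ K →
    ∀ f : Tor n L → ℂ, Measurable f → (∃ B : ℝ, ∀ x, ‖f x‖ ≤ B) →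
    ∀ (O : Finset (Fin n → Fin q)) (y : (Fin n → Fin q) → Tor n L),
      (∀ i ∈ O, y i ∈ blk n L b (fun c => (i c : ℕ))) →
      ∑ i ∈ O, ∫⁻ x in blk n L b (fun c => (i c : ℕ)), ‖f x‖ₑ ^ 2 ≤
        ENNReal.ofReal (CA * b ^ n) *
          (ken1 μ K f + ∑ i ∈ O, ∫⁻ x, v (tdist x (y i)) * ‖f x‖ₑ ^ 2)

/-- blocks with at least two particles are rare -/
def S_LA : Prop := ∀ (n : ℕ) (m C : ℝ) (v : ℝ → ℝ≥0∞), 1 ≤ n → 0 < m → m < n → 0 ≤ C →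
  Measurable v → ∫⁻ z : Fin n → ℝ, v (el z) ≠ 0 →
  ∃ CA b₀ : ℝ, 0 ≤ CA ∧ 1 ≤ b₀ ∧ ∀ (L b : ℝ) [Fact (0 < L)] (q : ℕ) (μ : ℝ≥0∞)
    (K : (Fin n → ℝ) → ℝ≥0∞), b₀ ≤ b → L = q * b → 8 ≤ q → Measurable K → PO n L m C μ K →
    ∀ F : Multiset (Tor n L) → ℂ, EB F →
      (∑ i : Fin n → Fin q, ∫⁻ γ, ((cnt (blk n L b (fun c => (i c : ℕ))) (ms γ) - 1 : ℕ) : ℝ≥0∞) *
        ‖F (ms γ)‖ₑ ^ 2 ∂(lam (volume : Measure (Tor n L))) ≤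
          ENNReal.ofReal (CA * b ^ n) * en μ K v F) ∧
      nuE volume F ≤ ENNReal.ofReal ((q : ℝ) ^ n) * nE volume F +
        ENNReal.ofReal (CA * b ^ n) * en μ K v F

/-- tails of the numbers of particles in the hat functions -/
def S_TAIL : Prop := ∀ (n : ℕ) (L b : ℝ) [Fact (0 < L)] (q s : ℕ), 1 ≤ q →
  L = (q * 2 ^ s : ℕ) * b → ∀ F : Multiset (Tor n L) → ℂ, EB F →
    ∑ i : Fin n → Fin q, tl volume (hat n L (2 ^ s * b) (fun c => (i c : ℕ)))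
        (4 ^ n / b ^ n * (2 ^ s * b) ^ n) F ≤
      ∑ i : Fin n → Fin (q * 2 ^ s),
        ∫⁻ γ, ((cnt (blk n L b (fun c => (i c : ℕ))) (ms γ) - 1 : ℕ) : ℝ≥0∞) *
          ‖F (ms γ)‖ₑ ^ 2 ∂(lam (volume : Measure (Tor n L)))

/-- Poincare inequality from the kinetic energy -/
def S_TRANS : Prop := ∀ (n : ℕ) (L μ : ℝ) [Fact (0 < L)] (K : (Fin n → ℝ) → ℝ≥0∞), 0 < μ →
  PO n L 2 (n * 2 ^ n / μ) (ENNReal.ofReal μ) K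

/-- Poincare inequality from the kernel -/
def S_POK : Prop := ∀ (n : ℕ) (L m c : ℝ) [Fact (0 < L)] (μ : ℝ≥0∞) (K : (Fin n → ℝ) → ℝ≥0∞),
  0 < c → 0 < m → (∀ z, ENNReal.ofReal (c * (1 + el z) ^ (-(n + m))) ≤ K z) → Measurable K →
  PO n L m (2 * (1 + √n) ^ (n + m) / c) μ K

/-! ## `N` particles -/

/-- symmetric square integrable wave functions of norm one -/
structure IsWf2 {n : ℕ} {L : ℝ} [Fact (0 < L)] {N : ℕ} (Ψ : (Fin N → Tor n L) → ℂ) : Prop where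
  meas : Measurable Ψ
  symm : ∀ (π : Equiv.Perm (Fin N)) (x : Fin N → Tor n L), Ψ (x ∘ π) = Ψ x
  norm : ∫⁻ x, ‖Ψ x‖ₑ ^ 2 = 1

/-- approximation by bounded wave functions -/
def S_TRUNC : Prop := ∀ (n : ℕ) (L : ℝ) [Fact (0 < L)] (μ : ℝ≥0∞) (K : (Fin n → ℝ) → ℝ≥0∞)
    (v : ℝ → ℝ≥0∞) (N : ℕ) (Ψ : (Fin N → Tor n L) → ℂ) (ε : ℝ), Measurable K → Measurable v →
  0 < ε → IsWf2 Ψ → enN μ K v Ψ ≠ ⊤ →
  ∃ Ψ' : (Fin N → Tor n L) → ℂ, IsWf Ψ' ∧ enN μ K v Ψ' ≤ enN μ K v Ψ + ENNReal.ofReal ε ∧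
    condN Ψ' ≤ condN Ψ + ε

/-- from wave functions to Fock space -/
def S_CONV : Prop := ∀ (n : ℕ) (L : ℝ) [Fact (0 < L)] (μ : ℝ≥0∞) (K : (Fin n → ℝ) → ℝ≥0∞)
    (v : ℝ → ℝ≥0∞) (N : ℕ) (Ψ : (Fin N → Tor n L) → ℂ), Measurable K → Measurable v → IsWf Ψ →
  0 ≤ condN Ψ ∧ ∃ F : Multiset (Tor n L) → ℂ, EB F ∧ nE volume F = 1 ∧
    nuE volume F = ENNReal.ofReal (N : ℝ) ∧ en μ K v F = enN μ K v Ψ ∧
    nE volume (ag volume (fun _ => 1) F) = ENNReal.ofReal (L ^ n * condN Ψ)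

/-- from Fock space to wave functions -/
def S_LOWN : Prop := ∀ (n : ℕ) (L : ℝ) [Fact (0 < L)] (μ : ℝ≥0∞) (K : (Fin n → ℝ) → ℝ≥0∞)
    (v : ℝ → ℝ≥0∞) (δ e : ℝ), Measurable K → Measurable v → 0 ≤ δ → 0 ≤ e →
  (∀ (N : ℕ) (Ψ : (Fin N → Tor n L) → ℂ), IsWf Ψ →
    ENNReal.ofReal (δ * N) ≤ enN μ K v Ψ + ENNReal.ofReal e) →
  ∀ F : Multiset (Tor n L) → ℂ, EB F →
    ENNReal.ofReal δ * nuE volume F ≤ en μ K v F + ENNReal.ofReal e * nE volume F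

/-- the constant wave function -/
def S_TRIAL : Prop := ∀ (n : ℕ) (L v₁ : ℝ) [Fact (0 < L)] (μ : ℝ≥0∞)
    (K : (Fin n → ℝ) → ℝ≥0∞) (v : ℝ → ℝ≥0∞) (N : ℕ), Measurable v → 0 ≤ v₁ →
  ∫⁻ z : Fin n → ℝ, v (el z) ≤ ENNReal.ofReal v₁ →
  ∃ Ψ : (Fin N → Tor n L) → ℂ, IsWf Ψ ∧
    enN μ K v Ψ ≤ ENNReal.ofReal ((N : ℝ) ^ 2 * v₁ / (2 * L ^ n))

end

end Pool.Agent.W761.CB
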