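import Pool.Agent.W761.CB.Main
import Pool.Agent.W975.CB.Ms
import Pool.Agent.W366.CB.Lam
import Pool.Agent.W338.CB.Ad
import Pool.Agent.W991.CB.W1
import Pool.Agent.W174.CB.Iso
import Pool.Agent.W803.CB.W3
import Pool.Agent.W99.CB.Der
import Pool.Agent.W803.CB.Par
import Pool.Agent.W366.CB.Ibp
import Pool.Agent.W790.CB.Win
import Pool.Agent.W193.CB.Meas
import Pool.Agent.W150.CB.Step
import Pool.Agent.W21.CB.Base
import Pool.Agent.W762.CB.Bot
import Pool.Agent.W880.CB.Dia0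
import Pool.Agent.W427.CB.Dia
import Pool.Agent.W135.CB.Tf
import Pool.Agent.W741.CB.DE
import Pool.Agent.W19.CB.Hat
import Pool.Agent.W816.CB.Ref
import Pool.Agent.W816.CB.Sm
import Pool.Agent.W249.CB.GK
import Pool.Agent.W131.CB.Fib
import Pool.Agent.W880.CB.Po2
import Pool.Agent.W374.CB2.Coh
import Pool.Agent.W374.CB2.Blk
import Pool.Agent.W372.CB.LA1
import Pool.Agent.W571.CB.La
import Pool.Agent.W571.CB.Tail
import Pool.Agent.W753.CB.Trans
import Pool.Agent.W880.CB.Pok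
import Pool.Agent.W230.CB.Conv
import Pool.Agent.W374.CB2.Lown
import Pool.Agent.W880.CB.Trial
import Pool.Agent.W376.CB.Trunc

/-!
# The main theorem
-/

set_option autoImplicit false

namespace Pool.Agent.W761.CB

/-- the main theorem, general form -/
theorem core_thm : S_CORE := by
  have hMS := Pool.Agent.W975.CB.proof_ms
  have hLAM := Pool.Agent.W366.CB.proof_lam hMS
  have hAD := Pool.Agent.W338.CB.proof_ad hMS hLAM
  have hW1 := Pool.Agent.W991.CB.proof_w1
  have hW2 := Pool.Agent.W174.CB.main hAD hW1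
  have hW3 := Pool.Agent.W803.CB.w3 hW1
  have hDER := Pool.Agent.W99.CB.der hW1 hW3
  have hMEAS := Pool.Agent.W193.CB.meas hW1 hW2 hW3 hDER Pool.Agent.W803.CB.par
    Pool.Agent.W366.CB.proof_ibp Pool.Agent.W790.CB.proof_win
  have hTF := Pool.Agent.W135.CB.proof_tf
  have hHAT := Pool.Agent.W19.CB.hat_proof hTF
  have hGK := Pool.Agent.W249.CB.gk hTF hHAT Pool.Agent.W249.CB.sup
  have hDIA := Pool.Agent.W427.CB.dia Pool.Agent.W880.CB.dia0 hTF
  have hDE := Pool.Agent.W741.CB.proof_de hTF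
  have hFIB := Pool.Agent.W131.CB.fib
  have hPO2 := Pool.Agent.W880.CB.po2 hFIB
  have hCOH := Pool.Agent.W374.CB2.Coh.coh hTF hHAT hGK hPO2
  have hBLK := Pool.Agent.W374.CB2.Blk.blk hTF
  have hLA1 := Pool.Agent.W372.CB.main hTF hBLK
  have hLA := Pool.Agent.W571.CB.La.proof_la hTF hBLK hLA1 hFIB
  have hTAIL := Pool.Agent.W571.CB.Tail.proof_tail hHAT hBLK
  exact main_of Pool.Agent.W150.CB.proof_step Pool.Agent.W21.CB.main Pool.Agent.W762.CB.bot hMEAS
    hHAT Pool.Agent.W816.CB.cb_ref (Pool.Agent.W816.CB.cb_sm hHAT) hGK hDIA hDE hTF hCOH hLA hTAIL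
    (Pool.Agent.W230.CB.conv hTF) (Pool.Agent.W374.CB2.Lown.lown hTF)
    (Pool.Agent.W880.CB.trial hTF) Pool.Agent.W376.CB.trunc

end Pool.Agent.W761.CB
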