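import Pool.Agent.W761.CB.Stms

/-!
# The chain of scales
-/

set_option autoImplicit false

open MeasureTheory
open scoped ENNReal

namespace Pool.Agent.W761.CB

noncomputable section

/-- the family of hat functions, `q` in each direction -/
def hf (n : ℕ) (L ℓ : ℝ) (q : ℕ) (i : Fin n → Fin q) (x : Tor n L) : ℝ :=
  hat n L ℓ (fun c => (i c : ℕ)) x

/-- bound of the squared differences of the hat functions -/
def sm (n : ℕ) (ℓ : ℝ) (z : Fin n → ℝ) : ℝ := 16 * (min 1 ((∑ c, |z c|) / ℓ)) ^ 2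

/-- the normalised error of the amplitudes -/
def rr (n : ℕ) (ℓ : ℝ) (ω : ℕ → ℝ) (j : ℕ) : ℝ := 1 / (ω j * ((2 ^ j * ℓ) ^ n) ^ 2) + ω j

theorem rr_mul (n : ℕ) (ℓ : ℝ) (hℓ : 0 < ℓ) (ω : ℕ → ℝ) (j : ℕ) (hω : 0 < ω j) :
    rr n ℓ ω j * ((2 ^ j * ℓ) ^ n) ^ 2 = 1 / ω j + ((2 ^ j * ℓ) ^ n) ^ 2 * ω j := by
  have : (0 : ℝ) < ((2 ^ j * ℓ) ^ n) ^ 2 := by positivity
  unfold rr
  field_simp

theorem rr_nonneg (n : ℕ) (ℓ : ℝ) (hℓ : 0 < ℓ) (ω : ℕ → ℝ) (j : ℕ) (hω : 0 < ω j) :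
    0 ≤ rr n ℓ ω j := by
  unfold rr
  positivity

theorem HasEns.mono {X : Type} [MeasurableSpace X] {ν : Measure X} {I : Type} [Fintype I]
    {en : (Multiset X → ℂ) → ℝ≥0∞} {u : I → X → ℝ} {Nlo Nhi E R B Nlo' Nhi' E' R' B' : ℝ}
    (h : HasEns ν en u Nlo Nhi E R B) (h1 : Nlo' ≤ Nlo) (h2 : Nhi ≤ Nhi') (h3 : E ≤ E')
    (h4 : R ≤ R') (h5 : B ≤ B') : HasEns ν en u Nlo' Nhi' E' R' B' := by
  obtain ⟨A, hA, Φ, c, h⟩ := h
  exact ⟨A, hA, Φ, c, h.eb, h.norm, (ENNReal.ofReal_le_ofReal h1).trans h.nlo,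
    h.nhi.trans (ENNReal.ofReal_le_ofReal h2), h.energy.trans (ENNReal.ofReal_le_ofReal h3),
    fun i => (h.amp i).trans (ENNReal.ofReal_le_ofReal h4),
    h.coh.trans (ENNReal.ofReal_le_ofReal h5)⟩

theorem sm_meas (n : ℕ) (ℓ : ℝ) : Measurable (sm n ℓ) := by
  unfold sm
  fun_prop

theorem chain (hS : S_STEP) (hB : S_BASE) (hM : S_MEAS) (hH : S_HAT) (hR : S_REF) (hSM : S_SM)
    (hG : S_GK) (hD : S_DIA) (hDE : S_DE) (hTF : S_TF)
    {n J : ℕ} {L ℓ : ℝ} [Fact (0 < L)] (hℓ : 0 < ℓ) (hL : L = 2 ^ J * ℓ) {μ : ℝ≥0∞}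
    {K : (Fin n → ℝ) → ℝ≥0∞} {v : ℝ → ℝ≥0∞} (hK : Measurable K) (hv : Measurable v) {v₁ : ℝ}
    (hv0 : 0 ≤ v₁) (hv1 : ∫⁻ z : Fin n → ℝ, v (el z) ≤ ENNReal.ofReal v₁)
    {δ e N E Q tol : ℝ} (hδ : 0 ≤ δ) (he0 : 0 ≤ e) (hN : 0 ≤ N) (hE : 0 ≤ E) (hQ : 0 ≤ Q)
    (_htol : 0 ≤ tol) (htolE : E + e - δ * N ≤ tol * L ^ n)
    {ψ : Multiset (Tor n L) → ℂ} (hψ : EB ψ) (hψ1 : nE volume ψ = 1)
    (hψN : nuE volume ψ = ENNReal.ofReal N) (hψE : en μ K v ψ ≤ ENNReal.ofReal E)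
    (hψQ : nE volume (ag volume (fun _ => 1) ψ) ≤ ENNReal.ofReal Q)
    (hlow : ∀ F : Multiset (Tor n L) → ℂ, EB F → ENNReal.ofReal δ * nuE volume F ≤
      en μ K v F + ENNReal.ofReal e * nE volume F)
    (ω nn ee β x g : ℕ → ℝ)
    (hω : ∀ j, j ≤ J → 0 < ω j) (hnn : ∀ j, j ≤ J → 0 ≤ nn j) (hee : ∀ j, j ≤ J → 0 ≤ ee j)
    (hβ0 : ∀ j, j ≤ J → 0 ≤ β j)
    (hg : ∀ j, 0 < j → j ≤ J → 0 < g j ∧ ∀ z : Fin n → ℝ, (∀ c, |z c| ≤ 2 * (2 ^ j * ℓ)) →
      ENNReal.ofReal (g j) ≤ K z)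
    (hx : ∀ j, j ≤ J → 0 ≤ x j ∧
      μ * (∑ c : Fin n, ⨆ k : ℕ, 4 ^ k *
        ENNReal.ofReal (sm n (2 ^ j * ℓ) (Pi.single c ((2 : ℝ)⁻¹ ^ k)))) +
      2⁻¹ * ∫⁻ z, K z * ENNReal.ofReal (sm n (2 ^ j * ℓ) z) ≤ ENNReal.ofReal (x j))
    (hn : N + ω J * L ^ n ≤ nn J * L ^ n)
    (he : 2 * ω J * v₁ * N + (25 * ω J ^ 2 * v₁ + ω J * x J) * L ^ n ≤ ee J * L ^ n)
    (hβ : √(Q + ω J * (L ^ n) ^ 2) + √(rr n ℓ ω J) * L ^ n ≤ β J * L ^ n)
    (hn' : ∀ j, j < J → nn (j + 1) + ω j ≤ nn j)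
    (he' : ∀ j, j < J → ee (j + 1) + (2 * ω j * v₁ * nn (j + 1) + 25 * ω j ^ 2 * v₁ + ω j * x j) ≤
      ee j)
    (hβ' : ∀ j, j < J → β (j + 1) + √(rr n ℓ ω (j + 1) + ω j) + √(rr n ℓ ω j) +
      √((tol + ee j) / ((2 ^ (j + 1) * ℓ) ^ n * g (j + 1))) ≤ β j) :
    HasEns volume (en μ K v) (hf n L ℓ (2 ^ J)) N (nn 0 * L ^ n) (E + ee 0 * L ^ n)
      (rr n ℓ ω 0 * (ℓ ^ n) ^ 2) (β 0 * L ^ n) := by
  have hLpos : 0 < L := Fact.out
  have hV : (0 : ℝ) < L ^ n := by positivity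
  obtain ⟨hvol, -, -, -, -, -, -, -⟩ := hTF n L
  have hVr : (volume (Set.univ : Set (Tor n L))).toReal = L ^ n := by
    rw [hvol, ENNReal.toReal_ofReal hV.le]
  have main : ∀ j, j ≤ J → ∀ q : ℕ, q = 2 ^ (J - j) →
      HasEns volume (en μ K v) (hf n L (2 ^ j * ℓ) q) N (nn j * L ^ n) (E + ee j * L ^ n)
        (rr n ℓ ω j * ((2 ^ j * ℓ) ^ n) ^ 2) (β j * L ^ n) := by
    intro j hjJ
    refine Nat.decreasingInduction' (P := fun j => ∀ q : ℕ, q = 2 ^ (J - j) →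
      HasEns volume (en μ K v) (hf n L (2 ^ j * ℓ) q) N (nn j * L ^ n) (E + ee j * L ^ n)
        (rr n ℓ ω j * ((2 ^ j * ℓ) ^ n) ^ 2) (β j * L ^ n)) ?_ hjJ ?_
    · intro j hjJ _ ih q hq
      have hjJ' : j ≤ J := hjJ.le
      set m : ℕ := 2 ^ (J - (j + 1)) with hm
      have hm1 : 1 ≤ m := Nat.one_le_two_pow
      have hq2 : q = 2 * m := by
        rw [hq, hm, ← pow_succ']
        congr 1
        omega
      subst hq2
      set ℓj : ℝ := 2 ^ j * ℓ with hℓj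
      have hℓj0 : 0 < ℓj := by positivity
      have h2ℓ : 2 ^ (j + 1) * ℓ = 2 * ℓj := by rw [hℓj, pow_succ]; ring
      have hLj : L = (2 * m : ℕ) * ℓj := by
        rw [hL, hℓj, hm]
        push_cast
        rw [← pow_succ', ← mul_assoc, ← pow_add]
        congr 2
        omega
      have hLm : L = m * (2 * ℓj) := by rw [hLj]; push_cast; ring
      obtain ⟨h, h0, h1, h2⟩ := hR n L ℓj m hm1 hLj
      obtain ⟨a1, a2, a3, a4, -⟩ := hH n L ℓj (2 * m) (by omega) hLj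
      obtain ⟨b1, b2, b3, b4, -⟩ := hH n L (2 * ℓj) m hm1 hLm
      have w0 := hω j hjJ'
      obtain ⟨g0, g1⟩ := hg (j + 1) (by omega) hjJ
      rw [h2ℓ] at g1
      obtain ⟨x0, x1⟩ := hx j hjJ'
      obtain ⟨A, hA, Lα, c, hins⟩ := hM (Tor n L) volume (Fin n → Fin (2 * m)) (hf n L ℓj (2 * m))
        (ω j) (ℓj ^ n) w0 (fun i => a1 _) (fun i x => (a2 _ x).1) a3 (fun i => a4 _)
      have hdia := hD n L μ K v (Fin n → Fin m) (hf n L (2 * ℓj) m) (g (j + 1)) hK hv g0.le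
        (fun i => b1 _) (fun i x => (b2 _ x).1) (fun i x => (b2 _ x).2)
        (hG n L (2 * ℓj) m K (g (j + 1)) hm1 hLm hK g0.le g1)
      have hde := hDE n L μ K v (Fin n → Fin (2 * m)) (hf n L ℓj (2 * m)) (ω j) (ℓj ^ n) (x j) v₁
        (sm n ℓj) A Lα c hK hv (sm_meas n ℓj) w0 x0 hv0 (fun z => by unfold sm; positivity) hins
        hv1 (hSM n L ℓj (2 * m) (by omega) hLj) x1
      have hw0 : 0 ≤ ω j := w0.le
      have ih' := ih m hm
      rw [h2ℓ] at ih'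
      have n1 := hnn (j + 1) hjJ
      have e1 := hee (j + 1) hjJ
      have r1 : 0 ≤ rr n ℓ ω (j + 1) := rr_nonneg n ℓ hℓ ω (j + 1) (hω (j + 1) hjJ)
      have key := hS (Tor n L) volume (Fin n → Fin (2 * m)) (Fin n → Fin m) (en μ K v)
        (hf n L ℓj (2 * m)) (hf n L (2 * ℓj) m) h (ω j) (ℓj ^ n) ((2 * ℓj) ^ n) (g (j + 1))
        (2 * ω j * v₁) ((25 * ω j ^ 2 * v₁ + ω j * x j) * L ^ n) δ e N (nn (j + 1) * L ^ n)
        (E + ee (j + 1) * L ^ n) (rr n ℓ ω (j + 1) * ((2 * ℓj) ^ n) ^ 2) (β (j + 1) * L ^ n)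
        A Lα c (fun i => a1 _) (fun i x => (a2 _ x).1) a3 (fun i => a4 _)
        (fun i => b1 _) (fun i x => (b2 _ x).1) (fun i x => (b2 _ x).2) (fun i => b4 _)
        h2 h0 h1 w0 g0 (by positivity) (by positivity) hδ he0 hN (by positivity) (by positivity)
        (by positivity) (mul_nonneg (hβ0 (j + 1) hjJ) hV.le) hdia hlow hins hde ih'
      rw [hVr] at key
      have hcI' : (Fintype.card (Fin n → Fin m) : ℝ) = L ^ n / (2 * ℓj) ^ n := by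
        rw [Fintype.card_fun, Fintype.card_fin, Fintype.card_fin, eq_div_iff (by positivity)]
        push_cast
        rw [← mul_pow, ← hLm]
      have hcI : (Fintype.card (Fin n → Fin (2 * m)) : ℝ) = L ^ n / ℓj ^ n := by
        rw [Fintype.card_fun, Fintype.card_fin, Fintype.card_fin, eq_div_iff (by positivity)]
        rw [Nat.cast_pow, ← mul_pow, ← hLj]
      rw [hcI, hcI'] at key
      have hMp : (0 : ℝ) < ℓj ^ n := by positivity
      have hM'p : (0 : ℝ) < (2 * ℓj) ^ n := by positivity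
      refine key.mono le_rfl ?_ ?_ ?_ ?_
      · have := mul_le_mul_of_nonneg_right (hn' j hjJ) hV.le
        linarith
      · have := mul_le_mul_of_nonneg_right (he' j hjJ) hV.le
        linarith
      · rw [rr_mul n ℓ hℓ ω j w0]
      · have e1 : L ^ n / (2 * ℓj) ^ n *
            √(rr n ℓ ω (j + 1) * ((2 * ℓj) ^ n) ^ 2 + ω j * ((2 * ℓj) ^ n) ^ 2) =
            √(rr n ℓ ω (j + 1) + ω j) * L ^ n := by
          rw [show rr n ℓ ω (j + 1) * ((2 * ℓj) ^ n) ^ 2 + ω j * ((2 * ℓj) ^ n) ^ 2 =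
              (rr n ℓ ω (j + 1) + ω j) * ((2 * ℓj) ^ n) ^ 2 by ring,
            Real.sqrt_mul' _ (by positivity), Real.sqrt_sq hM'p.le]
          field_simp
        have e2 : L ^ n / ℓj ^ n * √(1 / ω j + (ℓj ^ n) ^ 2 * ω j) =
            √(rr n ℓ ω j) * L ^ n := by
          rw [hℓj, ← rr_mul n ℓ hℓ ω j w0, ← hℓj, Real.sqrt_mul' _ (by positivity),
            Real.sqrt_sq hMp.le]
          field_simp
        have e3 : √(L ^ n / (2 * ℓj) ^ n * (E + ee (j + 1) * L ^ n +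
            2 * ω j * v₁ * (nn (j + 1) * L ^ n) + (25 * ω j ^ 2 * v₁ + ω j * x j) * L ^ n + e -
              δ * N) / g (j + 1)) ≤
            √((tol + ee j) / ((2 ^ (j + 1) * ℓ) ^ n * g (j + 1))) * L ^ n := by
          have : L ^ n = √((L ^ n) ^ 2) := (Real.sqrt_sq hV.le).symm
          conv_rhs => rw [this]
          rw [← Real.sqrt_mul' _ (by positivity)]
          apply Real.sqrt_le_sqrt
          have h5 : E + ee (j + 1) * L ^ n +
            2 * ω j * v₁ * (nn (j + 1) * L ^ n) + (25 * ω j ^ 2 * v₁ + ω j * x j) * L ^ n + e -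
              δ * N ≤ (tol + ee j) * L ^ n := by
            have := mul_le_mul_of_nonneg_right (he' j hjJ) hV.le
            linarith
          rw [h2ℓ]
          calc L ^ n / (2 * ℓj) ^ n * (E + ee (j + 1) * L ^ n +
            2 * ω j * v₁ * (nn (j + 1) * L ^ n) + (25 * ω j ^ 2 * v₁ + ω j * x j) * L ^ n + e -
              δ * N) / g (j + 1)
              ≤ L ^ n / (2 * ℓj) ^ n * ((tol + ee j) * L ^ n) / g (j + 1) := by
                gcongr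
            _ = (tol + ee j) / ((2 * ℓj) ^ n * g (j + 1)) * (L ^ n) ^ 2 := by
                field_simp
        rw [e1, e2]
        have := mul_le_mul_of_nonneg_right (hβ' j hjJ) hV.le
        linarith
    · intro q hq
      rw [Nat.sub_self, pow_zero] at hq
      subst hq
      have hLJ : L = (1 : ℕ) * (2 ^ J * ℓ) := by rw [hL]; push_cast; ring
      rw [← hL]
      obtain ⟨a1, a2, a3, a4, a5⟩ := hH n L L 1 le_rfl (by push_cast; ring)
      have w0 := hω J le_rfl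
      obtain ⟨x0, x1⟩ := hx J le_rfl
      rw [← hL] at x1
      obtain ⟨A, hA, Lα, c, hins⟩ := hM (Tor n L) volume (Fin n → Fin 1) (hf n L L 1)
        (ω J) (L ^ n) w0 (fun i => a1 _) (fun i x => (a2 _ x).1) a3 (fun i => a4 _)
      have hde := hDE n L μ K v (Fin n → Fin 1) (hf n L L 1) (ω J) (L ^ n) (x J) v₁
        (sm n L) A Lα c hK hv (sm_meas n L) w0 x0 hv0 (fun z => by unfold sm; positivity) hins
        hv1 (hSM n L L 1 le_rfl (by push_cast; ring)) x1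
      have hw0 : 0 ≤ ω J := w0.le
      have hc : Fintype.card (Fin n → Fin 1) = 1 := by simp
      rw [← hVr] at hins
      have key := hB (Tor n L) volume (Fin n → Fin 1) (en μ K v) (hf n L L 1) (ω J)
        (2 * ω J * v₁) ((25 * ω J ^ 2 * v₁ + ω J * x J) * L ^ n) N E Q A Lα c ψ hc
        (fun i x => a5 rfl _ x) w0 (by positivity) (by positivity) hN hE hQ hψ hψ1 hψN hψE hψQ
        hins hde
      rw [hVr] at key
      refine key.mono le_rfl hn (by linarith) ?_ ?_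
      · have := rr_mul n ℓ hℓ ω J w0
        rw [← hL] at this
        rw [this]
      · have := rr_mul n ℓ hℓ ω J w0
        rw [← hL] at this
        rw [← this, Real.sqrt_mul' _ (by positivity), Real.sqrt_sq hV.le]
        exact hβ
  have := main 0 (Nat.zero_le _) (2 ^ J) (by simp)
  simpa using this

end

end Pool.Agent.W761.CB
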