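import Pool.Agent.W761.CB.Chain

/-!
# The chain of scales with geometric parameters
-/

set_option autoImplicit false

open MeasureTheory
open scoped ENNReal

namespace Pool.Agent.W761.CB

noncomputable section

theorem sqrt_geo {μ ρ : ℝ} (hρ : 0 ≤ ρ) (hμ : μ = ρ ^ 2) (A : ℝ) (m : ℕ) :
    √(A * μ ^ m) = √A * ρ ^ m := by
  rw [hμ, ← pow_mul, mul_comm 2 m, pow_mul, Real.sqrt_mul' _ (by positivity),
    Real.sqrt_sq (by positivity)]

theorem sqrt_add_le' {a b : ℝ} (ha : 0 ≤ a) (hb : 0 ≤ b) : √(a + b) ≤ √a + √b := by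
  rw [Real.sqrt_le_left (by positivity)]
  nlinarith [Real.sq_sqrt ha, Real.sq_sqrt hb,
    mul_nonneg (Real.sqrt_nonneg a) (Real.sqrt_nonneg b)]

theorem core (hS : S_STEP) (hB : S_BASE) (hBOT : S_BOT) (hM : S_MEAS) (hH : S_HAT) (hR : S_REF)
    (hSM : S_SM) (hG : S_GK) (hD : S_DIA) (hDE : S_DE) (hTF : S_TF)
    {n J : ℕ} {L ℓ : ℝ} [Fact (0 < L)] (hℓ : 0 < ℓ) (hL : L = 2 ^ J * ℓ) {μ : ℝ≥0∞}
    {K : (Fin n → ℝ) → ℝ≥0∞} {v : ℝ → ℝ≥0∞} (hK : Measurable K) (hv : Measurable v) {v₁ : ℝ}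
    (hv0 : 0 ≤ v₁) (hv1 : ∫⁻ z : Fin n → ℝ, v (el z) ≤ ENNReal.ofReal v₁)
    {δ e N E Q tol : ℝ} (hδ : 0 ≤ δ) (he0 : 0 ≤ e) (hN : 0 ≤ N) (hE : 0 ≤ E) (hQ : 0 ≤ Q)
    (htol : 0 ≤ tol) (htolE : E + e - δ * N ≤ tol * L ^ n)
    {ψ : Multiset (Tor n L) → ℂ} (hψ : EB ψ) (hψ1 : nE volume ψ = 1)
    (hψN : nuE volume ψ = ENNReal.ofReal N) (hψE : en μ K v ψ ≤ ENNReal.ofReal E)
    (hψQ : nE volume (ag volume (fun _ => 1) ψ) ≤ ENNReal.ofReal Q)
    (hlow : ∀ F : Multiset (Tor n L) → ℂ, EB F → ENNReal.ofReal δ * nuE volume F ≤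
      en μ K v F + ENNReal.ofReal e * nE volume F)
    {P Tl K' : ℝ} (hP : 0 ≤ P) (hTl : 0 ≤ Tl) (hK' : 0 < K') (hKM : 1 ≤ K' * ℓ ^ n)
    (hcoh : ∀ F : Multiset (Tor n L) → ℂ, EB F → ENNReal.ofReal (ℓ ^ n) * nuE volume F ≤
      ∑ i, nE volume (ag volume (hf n L ℓ (2 ^ J) i) F) +
        ENNReal.ofReal (ℓ ^ n * P) * en μ K v F)
    (htail : ∀ F : Multiset (Tor n L) → ℂ, EB F →
      ∑ i, tl volume (hf n L ℓ (2 ^ J) i) (K' * ℓ ^ n) F ≤ ENNReal.ofReal Tl * en μ K v F)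
    {σ Γ X : ℝ} (hΓ : 0 < Γ) (hX0 : 0 ≤ X) (hσ : 0 < σ)
    (hg : ∀ j : ℕ, 0 < j → j ≤ J → ∀ z : Fin n → ℝ, (∀ c, |z c| ≤ 2 * (2 ^ j * ℓ)) →
      ENNReal.ofReal (Γ * (2 : ℝ) ^ (-((n + σ) * j))) ≤ K z)
    (hX : ∀ j : ℕ, j ≤ J → μ * (∑ c : Fin n, ⨆ k : ℕ, 4 ^ k *
        ENNReal.ofReal (sm n (2 ^ j * ℓ) (Pi.single c ((2 : ℝ)⁻¹ ^ k)))) +
      2⁻¹ * ∫⁻ z, K z * ENNReal.ofReal (sm n (2 ^ j * ℓ) z) ≤ ENNReal.ofReal X)
    {ns : ℝ} (hns : N ≤ ns * L ^ n)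
    {ω0 lam mu ρ : ℝ} (hω0 : 0 < ω0) (hlam0 : 0 < lam) (hlm : lam ≤ mu) (hmu : mu < 1)
    (hρ : 0 ≤ ρ) (hmuρ : mu = ρ ^ 2) (hlam2 : lam * ((2 : ℝ) ^ n) ^ 2 * mu = 1)
    (hlams : (2 : ℝ) ^ σ * lam = mu)
    {ξ : ℝ} (hξ : ξ = 1 / (ω0 * (ℓ ^ n) ^ 2))
    {N1 A1 es H T q : ℝ} (hN1 : N1 = ns + ω0 / (1 - lam))
    (hA1 : A1 = 2 * v₁ * N1 + 25 * ω0 * v₁ + X)
    (hes : es = ω0 * A1 / (1 - lam))
    (hHdef : H = √(2 * (ξ + ω0)) + √(ξ + ω0) + √((2 : ℝ) ^ σ * es / (ℓ ^ n * Γ)))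
    (hT : T = tol * (2 : ℝ) ^ (σ * J) / (ℓ ^ n * Γ)) (hq : q = (2 : ℝ) ^ (-σ / 2)) :
    N ≤ ((P + 16 * Tl) * (E / L ^ n + es) + 12 * (ξ + ω0) +
      7 * √K' * (√(Q / (L ^ n) ^ 2) + H / (1 - ρ) + √T / (1 - q))) * L ^ n := by
  have hLpos : 0 < L := Fact.out
  have hV : (0 : ℝ) < L ^ n := by positivity
  have hM0 : (0 : ℝ) < ℓ ^ n := by positivity
  have hmu0 : 0 < mu := lt_of_lt_of_le hlam0 hlm
  have hlam1 : lam < 1 := lt_of_le_of_lt hlm hmu
  have h1l : 0 < 1 - lam := by linarith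
  have hξ0 : 0 < ξ := by rw [hξ]; positivity
  have hρ1 : ρ < 1 := by
    by_contra h
    have : 1 ≤ ρ ^ 2 := one_le_pow₀ (not_lt.1 h)
    linarith
  have h1ρ : 0 < 1 - ρ := by linarith
  have hq0 : 0 < q := by rw [hq]; positivity
  have hq1 : q < 1 := by
    rw [hq]
    exact Real.rpow_lt_one_of_one_lt_of_neg (by norm_num) (by linarith)
  have h1q : 0 < 1 - q := by linarith
  have hns0 : 0 ≤ ns := by
    have : 0 ≤ ns * L ^ n := hN.trans hns
    exact nonneg_of_mul_nonneg_left this hV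
  have hN10 : 0 ≤ N1 := by rw [hN1]; positivity
  have hA10 : 0 ≤ A1 := by rw [hA1]; positivity
  have hes0 : 0 ≤ es := by rw [hes]; positivity
  have hT0 : 0 ≤ T := by rw [hT]; positivity
  have hH0 : 0 ≤ H := by rw [hHdef]; positivity
  have hlamm : ∀ m : ℕ, lam ^ m ≤ 1 := fun m => pow_le_one₀ hlam0.le hlam1.le
  have hlmm : ∀ m : ℕ, lam ^ m ≤ mu ^ m := fun m => pow_le_pow_left₀ hlam0.le hlm m
  -- the sequences
  set ω : ℕ → ℝ := fun j => ω0 * lam ^ j with hωdef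
  set nn : ℕ → ℝ := fun j => ns + ω0 / (1 - lam) * lam ^ j with hndef
  set ee : ℕ → ℝ := fun j => es * lam ^ j with hedef
  set b0 : ℝ := √(Q / (L ^ n) ^ 2) with hb0
  set β : ℕ → ℝ := fun j => b0 + H / (1 - ρ) * ρ ^ j + √T * ((1 - q ^ (J - j)) / (1 - q))
    with hβdef
  set g : ℕ → ℝ := fun j => Γ * (2 : ℝ) ^ (-((n + σ) * j)) with hgdef
  have hqm : ∀ m : ℕ, q ^ m ≤ 1 := fun m => pow_le_one₀ hq0.le hq1.le
  have hrr : ∀ j, rr n ℓ ω j ≤ (ξ + ω0) * mu ^ j := by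
    intro m
    have e1 : 1 / (ω0 * lam ^ m * ((2 ^ m * ℓ) ^ n) ^ 2) = ξ * mu ^ m := by
      rw [hξ]
      have h3 : (lam ^ m) * (((2:ℝ) ^ n) ^ m) ^ 2 * mu ^ m = 1 := by
        rw [← pow_mul, mul_comm m 2, pow_mul, ← mul_pow, ← mul_pow, hlam2, one_pow]
      have h4 : (lam ^ m) ≠ 0 := by positivity
      have h5 : mu ^ m ≠ 0 := by positivity
      have h6 : ((2:ℝ) ^ m * ℓ) ^ n = ((2:ℝ) ^ n) ^ m * ℓ ^ n := by
        rw [mul_pow, ← pow_mul, mul_comm m n, pow_mul]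
      rw [h6]
      field_simp
      linear_combination (-1 : ℝ) * h3
    unfold rr
    simp only [hωdef]
    rw [e1]
    have h3 := mul_le_mul_of_nonneg_left (hlmm m) hω0.le
    linarith only [h3]
  have hrr0 : ∀ j, √(rr n ℓ ω j) ≤ √(ξ + ω0) * ρ ^ j := by
    intro j
    rw [← sqrt_geo hρ hmuρ]
    exact Real.sqrt_le_sqrt (hrr j)
  have hωle : ∀ j, ω j ≤ ω0 := by
    intro j
    have := mul_le_mul_of_nonneg_left (hlamm j) hω0.le
    simp only [hωdef]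
    linarith
  have hωpos : ∀ j, 0 < ω j := fun j => by simp only [hωdef]; positivity
  have key := chain hS hB hM hH hR hSM hG hD hDE hTF hℓ hL hK hv hv0 hv1 hδ he0 hN hE hQ htol
    htolE hψ hψ1 hψN hψE hψQ hlow ω nn ee β (fun _ => X) g
    (fun j _ => hωpos j) (fun j _ => by simp only [hndef]; positivity)
    (fun j _ => by simp only [hedef]; positivity)
    (fun j _ => by
      simp only [hβdef]
      have : 0 ≤ 1 - q ^ (J - j) := by linarith [hqm (J - j)]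
      positivity)
    (fun j h0 h1 => ⟨by simp only [hgdef]; positivity, hg j h0 h1⟩)
    (fun j h1 => ⟨hX0, hX j h1⟩) ?_ ?_ ?_ ?_ ?_ ?_
  · obtain ⟨a1, a2, a3, a4, -⟩ := hH n L ℓ (2 ^ J) Nat.one_le_two_pow (by rw [hL]; push_cast; rfl)
    have hβ00 : 0 ≤ β 0 * L ^ n := by
      apply mul_nonneg _ hV.le
      simp only [hβdef]
      have : 0 ≤ 1 - q ^ (J - 0) := by linarith [hqm (J - 0)]
      positivity
    have hee0 : 0 ≤ ee 0 := by simp only [hedef]; positivity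
    have hrr00 : 0 ≤ rr n ℓ ω 0 := rr_nonneg n ℓ hℓ ω 0 (hωpos 0)
    have bot := hBOT (Tor n L) volume (Fin n → Fin (2 ^ J)) (en μ K v) (hf n L ℓ (2 ^ J))
      (ℓ ^ n) K' P Tl N (nn 0 * L ^ n) (E + ee 0 * L ^ n) (rr n ℓ ω 0 * (ℓ ^ n) ^ 2)
      (β 0 * L ^ n) (fun i => a1 _) (fun i x => (a2 _ x).1) (fun i x => (a2 _ x).2)
      (fun i => a4 _) hM0 hK' hKM hP hTl hN (by positivity) (by positivity) hβ00 hcoh htail key
    have hcI : (Fintype.card (Fin n → Fin (2 ^ J)) : ℝ) = L ^ n / ℓ ^ n := by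
      rw [Fintype.card_fun, Fintype.card_fin, Fintype.card_fin, eq_div_iff (by positivity)]
      push_cast
      rw [← mul_pow, ← hL]
    rw [hcI] at bot
    have h6 : 12 * (L ^ n / ℓ ^ n) * (rr n ℓ ω 0 * (ℓ ^ n) ^ 2) / ℓ ^ n =
        12 * rr n ℓ ω 0 * L ^ n := by
      field_simp
    rw [h6] at bot
    have h5 := hrr 0
    rw [pow_zero, mul_one] at h5
    have h7 : β 0 ≤ b0 + H / (1 - ρ) + √T / (1 - q) := by
      simp only [hβdef, pow_zero, mul_one]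
      have : √T * ((1 - q ^ (J - 0)) / (1 - q)) ≤ √T / (1 - q) := by
        rw [← mul_div_assoc]
        gcongr
        have : 0 ≤ q ^ (J - 0) := by positivity
        have h9 := mul_nonneg (Real.sqrt_nonneg T) this
        linarith only [h9]
      linarith
    have h8 : ee 0 = es := by simp only [hedef, pow_zero, mul_one]
    rw [h8] at bot
    have h9 : (P + 16 * Tl) * (E + es * L ^ n) = (P + 16 * Tl) * (E / L ^ n + es) * L ^ n := by
      field_simp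
    rw [h9] at bot
    have h10 : 7 * √K' * (β 0 * L ^ n) ≤
        7 * √K' * (b0 + H / (1 - ρ) + √T / (1 - q)) * L ^ n := by
      rw [← mul_assoc]
      gcongr
    have h11 : 12 * rr n ℓ ω 0 * L ^ n ≤ 12 * (ξ + ω0) * L ^ n := by gcongr
    linarith
  · -- hn
    have h3 : ω J ≤ ω0 / (1 - lam) * lam ^ J := by
      simp only [hωdef]
      apply mul_le_mul_of_nonneg_right _ (by positivity)
      rw [le_div_iff₀ h1l]
      have h9 := mul_nonneg hω0.le hlam0.le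
      linarith only [h9]
    have := mul_le_mul_of_nonneg_right h3 hV.le
    simp only [hndef]
    linarith
  · -- he
    have hnN : N ≤ N1 * L ^ n := by
      refine hns.trans (mul_le_mul_of_nonneg_right ?_ hV.le)
      rw [hN1]
      have : 0 ≤ ω0 / (1 - lam) := by positivity
      linarith
    have w0 := (hωpos J).le
    have a1 : 2 * ω J * v₁ * N ≤ 2 * ω J * v₁ * (N1 * L ^ n) :=
      mul_le_mul_of_nonneg_left hnN (by positivity)
    have a2 : (25 * ω J ^ 2 * v₁ + ω J * X) * L ^ n ≤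
        (25 * (ω J * ω0) * v₁ + ω J * X) * L ^ n := by
      have : ω J ^ 2 ≤ ω J * ω0 := by rw [sq]; exact mul_le_mul_of_nonneg_left (hωle J) w0
      gcongr
    have a3 : ω J * A1 ≤ ee J := by
      simp only [hωdef, hedef, hes]
      have : ω0 * lam ^ J * A1 ≤ ω0 * lam ^ J * A1 / (1 - lam) := by
        rw [le_div_iff₀ h1l]
        have : 0 ≤ ω0 * lam ^ J * A1 := by positivity
        have h9 := mul_nonneg this hlam0.le
        linarith only [h9]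
      calc ω0 * lam ^ J * A1 ≤ ω0 * lam ^ J * A1 / (1 - lam) := this
        _ = ω0 * A1 / (1 - lam) * lam ^ J := by ring
    have a5 := mul_le_mul_of_nonneg_right a3 hV.le
    have a7 : ω J * A1 * L ^ n = 2 * ω J * v₁ * (N1 * L ^ n) +
        (25 * (ω J * ω0) * v₁ + ω J * X) * L ^ n := by
      rw [hA1]; ring
    linarith
  · -- hβ
    have h1 : √(Q + ω J * (L ^ n) ^ 2) ≤ (b0 + √(ω J)) * L ^ n := by
      have h2 : Q + ω J * (L ^ n) ^ 2 = (Q / (L ^ n) ^ 2 + ω J) * (L ^ n) ^ 2 := by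
        field_simp
      rw [h2, Real.sqrt_mul' _ (by positivity), Real.sqrt_sq hV.le]
      apply mul_le_mul_of_nonneg_right _ hV.le
      exact sqrt_add_le' (by positivity) (hωpos J).le
    have h3 : √(ω J) ≤ √(2 * (ξ + ω0)) * ρ ^ J := by
      rw [← sqrt_geo hρ hmuρ]
      apply Real.sqrt_le_sqrt
      simp only [hωdef]
      have := mul_le_mul_of_nonneg_left (hlmm J) hω0.le
      have h4 : 0 ≤ ξ * mu ^ J := by positivity
      have h5 : 0 ≤ ω0 * mu ^ J := by positivity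
      linarith only [this, h4, h5]
    have h4 := hrr0 J
    have h5 : H * ρ ^ J ≤ H / (1 - ρ) * ρ ^ J := by
      apply mul_le_mul_of_nonneg_right _ (by positivity)
      rw [le_div_iff₀ h1ρ]
      have h9 := mul_nonneg hH0 hρ
      linarith only [h9]
    have h6 : (√(2 * (ξ + ω0)) + √(ξ + ω0)) * ρ ^ J ≤ H * ρ ^ J := by
      apply mul_le_mul_of_nonneg_right _ (by positivity)
      rw [hHdef]
      have := Real.sqrt_nonneg ((2 : ℝ) ^ σ * es / (ℓ ^ n * Γ))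
      linarith
    have h7 : b0 + √(ω J) + √(rr n ℓ ω J) ≤ β J := by
      simp only [hβdef, Nat.sub_self, pow_zero, sub_self, zero_div, mul_zero, add_zero]
      linarith only [h3, h4, h5, h6]
    have h8 := mul_le_mul_of_nonneg_right h7 hV.le
    linarith
  · -- hn'
    intro m _
    simp only [hndef, hωdef]
    have e1 : ω0 / (1 - lam) * lam ^ m = ω0 * lam ^ m + ω0 / (1 - lam) * lam ^ (m + 1) := by
      field_simp
      ring
    linarith
  · -- he'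
    intro m _
    have hω' : ω m = ω0 * lam ^ m := rfl
    have w0 := (hωpos m).le
    have hnle : nn (m + 1) ≤ N1 := by
      simp only [hndef, hN1]
      have : ω0 / (1 - lam) * lam ^ (m + 1) ≤ ω0 / (1 - lam) * 1 :=
        mul_le_mul_of_nonneg_left (hlamm _) (by positivity)
      linarith
    have hd : 2 * ω m * v₁ * nn (m + 1) + 25 * ω m ^ 2 * v₁ + ω m * X ≤ ω m * A1 := by
      have a1 : 2 * ω m * v₁ * nn (m + 1) ≤ 2 * ω m * v₁ * N1 :=
        mul_le_mul_of_nonneg_left hnle (by positivity)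
      have a3 : 25 * ω m ^ 2 * v₁ ≤ 25 * (ω m * ω0) * v₁ := by
        have : ω m ^ 2 ≤ ω m * ω0 := by rw [sq]; exact mul_le_mul_of_nonneg_left (hωle m) w0
        gcongr
      rw [hA1]
      linarith
    have he1 : ee m = ω m * A1 + ee (m + 1) := by
      simp only [hedef, hes, hω']
      field_simp
      ring
    linarith
  · -- hβ'
    intro m hm
    have hω' : ω m = ω0 * lam ^ m := rfl
    have h1 : √(rr n ℓ ω (m + 1) + ω m) ≤ √(2 * (ξ + ω0)) * ρ ^ m := by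
      rw [← sqrt_geo hρ hmuρ]
      apply Real.sqrt_le_sqrt
      have h2 := hrr (m + 1)
      have h3 : mu ^ (m + 1) ≤ mu ^ m := pow_le_pow_of_le_one hmu0.le hmu.le (by omega)
      have h4 : (ξ + ω0) * mu ^ (m + 1) ≤ (ξ + ω0) * mu ^ m :=
        mul_le_mul_of_nonneg_left h3 (by positivity)
      have h5 := mul_le_mul_of_nonneg_left (hlmm m) hω0.le
      have h6 : 0 ≤ ξ * mu ^ m := by positivity
      rw [hω']
      linarith only [h2, h4, h5, h6]
    have h2 := hrr0 m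
    have two : (0 : ℝ) < 2 := by norm_num
    have h3 : √((tol + ee m) / ((2 ^ (m + 1) * ℓ) ^ n * g (m + 1))) ≤
        √T * q ^ (J - (m + 1)) + √((2 : ℝ) ^ σ * es / (ℓ ^ n * Γ)) * ρ ^ m := by
      have hden : (2 ^ (m + 1) * ℓ) ^ n * g (m + 1) =
          ℓ ^ n * Γ * (2 : ℝ) ^ (-(σ * (m + 1 : ℕ))) := by
        simp only [hgdef]
        have p1 : ((2 : ℝ) ^ (m + 1) * ℓ) ^ n = (2 : ℝ) ^ ((n : ℝ) * (m + 1 : ℕ)) * ℓ ^ n := by
          rw [mul_pow, ← pow_mul, ← Real.rpow_natCast]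
          congr 2
          push_cast
          ring
        have p2 : (2 : ℝ) ^ (-(((n : ℝ) + σ) * (m + 1 : ℕ))) =
            (2 : ℝ) ^ (-((n : ℝ) * (m + 1 : ℕ))) * (2 : ℝ) ^ (-(σ * (m + 1 : ℕ))) := by
          rw [← Real.rpow_add two]
          congr 1
          ring
        have p3 : (2 : ℝ) ^ ((n : ℝ) * (m + 1 : ℕ)) * (2 : ℝ) ^ (-((n : ℝ) * (m + 1 : ℕ))) = 1 := by
          rw [← Real.rpow_add two]
          simp
        rw [p1, p2]
        calc (2 : ℝ) ^ ((n : ℝ) * (m + 1 : ℕ)) * ℓ ^ n * (Γ * ((2 : ℝ) ^ (-((n : ℝ) * (m + 1 : ℕ))) *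
              (2 : ℝ) ^ (-(σ * (m + 1 : ℕ)))))
            = ((2 : ℝ) ^ ((n : ℝ) * (m + 1 : ℕ)) * (2 : ℝ) ^ (-((n : ℝ) * (m + 1 : ℕ)))) *
              (ℓ ^ n * Γ * (2 : ℝ) ^ (-(σ * (m + 1 : ℕ)))) := by ring
          _ = _ := by rw [p3, one_mul]
      have hp : (0 : ℝ) < (2 : ℝ) ^ (-(σ * (m + 1 : ℕ))) := by positivity
      have hsplit : (tol + ee m) / ((2 ^ (m + 1) * ℓ) ^ n * g (m + 1)) =
          T * (q ^ 2) ^ (J - (m + 1)) + ((2 : ℝ) ^ σ * es / (ℓ ^ n * Γ)) * mu ^ m := by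
        rw [hden]
        have c1 : tol / (ℓ ^ n * Γ * (2 : ℝ) ^ (-(σ * (m + 1 : ℕ)))) =
            T * (q ^ 2) ^ (J - (m + 1)) := by
          have c2 : (q ^ 2) ^ (J - (m + 1)) = (2 : ℝ) ^ (-(σ * (J : ℝ))) *
              (2 : ℝ) ^ (σ * (m + 1 : ℕ)) := by
            have : q ^ 2 = (2 : ℝ) ^ (-σ) := by
              rw [hq, ← Real.rpow_natCast, ← Real.rpow_mul two.le]
              congr 1
              push_cast
              ring
            rw [this, ← Real.rpow_natCast, ← Real.rpow_mul two.le, ← Real.rpow_add two,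
              Nat.cast_sub (by omega)]
            congr 1
            ring
          have c3 : (2 : ℝ) ^ (σ * (J : ℝ)) * (2 : ℝ) ^ (-(σ * (J : ℝ))) = 1 := by
            rw [← Real.rpow_add two]; simp
          have c4 : (2 : ℝ) ^ (-(σ * (m + 1 : ℕ))) * (2 : ℝ) ^ (σ * (m + 1 : ℕ)) = 1 := by
            rw [← Real.rpow_add two]; simp
          rw [c2, hT]
          rw [div_eq_iff (by positivity)]
          calc tol = tol * ((2 : ℝ) ^ (σ * (J : ℝ)) * (2 : ℝ) ^ (-(σ * (J : ℝ)))) *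
                ((2 : ℝ) ^ (-(σ * (m + 1 : ℕ))) * (2 : ℝ) ^ (σ * (m + 1 : ℕ))) := by
                rw [c3, c4]; ring
            _ = _ := by field_simp
        have c5 : ee m / (ℓ ^ n * Γ * (2 : ℝ) ^ (-(σ * (m + 1 : ℕ)))) =
            ((2 : ℝ) ^ σ * es / (ℓ ^ n * Γ)) * mu ^ m := by
          have c6 : mu ^ m = (2 : ℝ) ^ (σ * (m : ℝ)) * lam ^ m := by
            rw [← hlams, mul_pow, ← Real.rpow_natCast ((2 : ℝ) ^ σ), ← Real.rpow_mul two.le]
          have c7 : (2 : ℝ) ^ σ * (2 : ℝ) ^ (σ * (m : ℝ)) * (2 : ℝ) ^ (-(σ * (m + 1 : ℕ))) = 1 := by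
            rw [← Real.rpow_add two, ← Real.rpow_add two]
            push_cast
            rw [show σ + σ * (m : ℝ) + -(σ * ((m : ℝ) + 1)) = 0 by ring, Real.rpow_zero]
          rw [c6, div_eq_iff (by positivity)]
          simp only [hedef]
          calc es * lam ^ m = es * lam ^ m *
                ((2 : ℝ) ^ σ * (2 : ℝ) ^ (σ * (m : ℝ)) * (2 : ℝ) ^ (-(σ * (m + 1 : ℕ)))) := by
                rw [c7, mul_one]
            _ = _ := by field_simp
        rw [add_div, c1, c5]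
      rw [hsplit]
      refine (sqrt_add_le' (by positivity) (by positivity)).trans ?_
      rw [sqrt_geo hq0.le rfl, sqrt_geo hρ hmuρ]
    have h4 : β m = H * ρ ^ m + √T * q ^ (J - (m + 1)) + β (m + 1) := by
      simp only [hβdef]
      obtain ⟨d, rfl⟩ : ∃ d, J = m + 1 + d := ⟨J - (m + 1), by omega⟩
      rw [show m + 1 + d - (m + 1) = d by omega, show m + 1 + d - m = d + 1 by omega]
      field_simp
      ring
    rw [h4]
    have h5 : H * ρ ^ m = √(2 * (ξ + ω0)) * ρ ^ m + √(ξ + ω0) * ρ ^ m +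
        √((2 : ℝ) ^ σ * es / (ℓ ^ n * Γ)) * ρ ^ m := by
      rw [hHdef]; ring
    rw [h5]
    linarith

end

end Pool.Agent.W761.CB
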