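import Mathlib

/-!
# Condensation in the continuum Bose gas with a weak long-range hopping: definitions

`X` is the one-particle space (later a torus) with a finite measure `ν`.  A configuration
`γ : Cf X` is a finite list of points, `ms γ` is the multiset of its points, `lam ν` is the measure
`∑_N ν^N / N!` on configurations.  A vector of the Fock space is a function `F : Multiset X → ℂ`
with `EB F`: measurable and exponentially bounded in the number of particles.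
-/

set_option autoImplicit false

open MeasureTheory
open scoped ENNReal

namespace Pool.Agent.W761.CB

noncomputable section

/-! ### Configurations -/

/-- finite ordered configurations -/
abbrev Cf (X : Type) := Σ N : ℕ, (Fin N → X)

section
variable {X : Type}

/-- the multiset of the points -/
def ms (γ : Cf X) : Multiset X := (List.ofFn γ.2 : Multiset X)

/-- one more point, in front -/
def cs (x : X) (γ : Cf X) : Cf X := ⟨γ.1 + 1, Fin.cons x γ.2⟩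

/-- two configurations one after the other -/
def ap (γ γ' : Cf X) : Cf X := ⟨γ.1 + γ'.1, Fin.append γ.2 γ'.2⟩

/-- the measure `∑_N ν^N / N!` -/
def lam [MeasurableSpace X] (ν : Measure X) : Measure (Cf X) :=
  Measure.sum fun N : ℕ =>
    ((N.factorial : ℝ≥0∞)⁻¹) • (Measure.pi fun _ : Fin N => ν).map (Sigma.mk N)

/-! ### Vectors -/

/-- exponentially bounded measurable vectors -/
structure EB [MeasurableSpace X] (F : Multiset X → ℂ) : Prop where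
  meas : Measurable fun γ : Cf X => F (ms γ)
  bdd : ∃ C c : ℝ, 0 ≤ C ∧ 1 ≤ c ∧ ∀ S, ‖F S‖ ≤ C * c ^ Multiset.card S

/-- annihilation at a point -/
def an (x : X) (F : Multiset X → ℂ) : Multiset X → ℂ := fun S => F (x ::ₘ S)

/-- the absolute value -/
def absv (F : Multiset X → ℂ) : Multiset X → ℂ := fun S => ((‖F S‖ : ℝ) : ℂ)

variable [MeasurableSpace X] (ν : Measure X)

/-- squared norm -/
def nE (F : Multiset X → ℂ) : ℝ≥0∞ := ∫⁻ γ, ‖F (ms γ)‖ₑ ^ 2 ∂(lam ν)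

/-- annihilation of the function `g` -/
def ag (g : X → ℝ) (F : Multiset X → ℂ) : Multiset X → ℂ :=
  fun S => ∫ x, (g x : ℂ) * F (x ::ₘ S) ∂ν

/-- particle number -/
def nuE (F : Multiset X → ℂ) : ℝ≥0∞ := ∫⁻ x, nE ν (an x F) ∂ν

/-- `‖(a_x - a_y) F‖²` -/
def dE (F : Multiset X → ℂ) (x y : X) : ℝ≥0∞ := nE ν (fun S => F (x ::ₘ S) - F (y ::ₘ S))

/-- `‖(a(g) - z) F‖²` -/
def dev (g : X → ℝ) (z : ℂ) (F : Multiset X → ℂ) : ℝ≥0∞ := nE ν (fun S => ag ν g F S - z * F S)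

/-- the expectation of `(∑_x v(x) - κ)_+` -/
def tl (v : X → ℝ) (κ : ℝ) (F : Multiset X → ℂ) : ℝ≥0∞ :=
  ∫⁻ γ, ENNReal.ofReal (((ms γ).map v).sum - κ) * ‖F (ms γ)‖ₑ ^ 2 ∂(lam ν)

/-! ### Weyl operators -/

/-- the operator `exp (a* (w))` -/
def PP (w : X → ℂ) (F : Multiset X → ℂ) : Multiset X → ℂ :=
  fun S => (S.antidiagonal.map fun p => (p.1.map w).prod * F p.2).sum

/-- the operator `exp (∫ w a)` -/
def QQ (w : X → ℂ) (F : Multiset X → ℂ) : Multiset X → ℂ :=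
  fun S => ∫ γ, ((ms γ).map w).prod * F (S + ms γ) ∂(lam ν)

/-- the Weyl operator -/
def DD (w : X → ℂ) (F : Multiset X → ℂ) : Multiset X → ℂ :=
  fun S => Complex.exp (-((∫ x, ‖w x‖ ^ 2 ∂ν : ℝ) : ℂ) / 2) *
    PP w (QQ ν (fun x => -(starRingEnd ℂ) (w x)) F) S

end

/-! ### Ensembles -/

section
variable {X : Type} [MeasurableSpace X] (ν : Measure X) {I : Type} [Fintype I]

/-- A measurement of the amplitudes `a(u_i)`: outcomes `α : A`, operators `L α`, measured values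
`c α i`; `ω` is the strength of the disturbance. -/
structure IsIns (u : I → X → ℝ) (ω M : ℝ) {A : Type}
    (L : A → (Multiset X → ℂ) → Multiset X → ℂ) (c : A → I → ℂ) : Prop where
  eb : ∀ F, EB F → ∀ α, EB (L α F)
  norm : ∀ F, EB F → ∑' α, nE ν (L α F) = nE ν F
  nlo : ∀ F, EB F → ∀ x, nE ν (an x F) ≤ ∑' α, nE ν (an x (L α F))
  nhi : ∀ F, EB F → ∀ x,
    ∑' α, nE ν (an x (L α F)) ≤ nE ν (an x F) + ENNReal.ofReal ω * nE ν F
  kin : ∀ F, EB F → ∀ x y, ∑' α, dE ν (L α F) x y ≤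
    dE ν F x y + ENNReal.ofReal (ω * ∑ i, (u i x - u i y) ^ 2) * nE ν F
  pair : ∀ F, EB F → ∀ x y, ∑' α, nE ν (an y (an x (L α F))) ≤
    nE ν (an y (an x F)) + ENNReal.ofReal (2 * ω) * (nE ν (an x F) + nE ν (an y F)) +
      ENNReal.ofReal (49 * ω ^ 2) * nE ν F
  amp : ∀ F, EB F → ∀ i, ∑' α, dev ν (u i) (c α i) (L α F) ≤
    ENNReal.ofReal (1 / ω + M ^ 2 * ω) * nE ν F
  old : ∀ F, EB F → ∀ (g : X → ℝ) (z : ℂ), Measurable g → (∀ x, 0 ≤ g x) →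
    (∃ C : ℝ, ∀ x, g x ≤ C) →
    ∑' α, dev ν g z (L α F) ≤ dev ν g z F + ENNReal.ofReal (ω * (∫ x, g x ∂ν) ^ 2) * nE ν F

/-- An ensemble of vectors `Φ α` with known amplitudes `c α i`. -/
structure IsEns (en : (Multiset X → ℂ) → ℝ≥0∞) (u : I → X → ℝ) (Nlo Nhi E R B : ℝ) {A : Type}
    (Φ : A → Multiset X → ℂ) (c : A → I → ℂ) : Prop where
  eb : ∀ α, EB (Φ α)
  norm : ∑' α, nE ν (Φ α) = 1
  nlo : ENNReal.ofReal Nlo ≤ ∑' α, nuE ν (Φ α)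
  nhi : ∑' α, nuE ν (Φ α) ≤ ENNReal.ofReal Nhi
  energy : ∑' α, en (Φ α) ≤ ENNReal.ofReal E
  amp : ∀ i, ∑' α, dev ν (u i) (c α i) (Φ α) ≤ ENNReal.ofReal R
  coh : ∑' α, nE ν (Φ α) * ∑ i, ‖c α i‖ₑ ≤ ENNReal.ofReal B

/-- existence of an ensemble -/
def HasEns (en : (Multiset X → ℂ) → ℝ≥0∞) (u : I → X → ℝ) (Nlo Nhi E R B : ℝ) : Prop :=
  ∃ (A : Type) (_ : Countable A) (Φ : A → Multiset X → ℂ) (c : A → I → ℂ),
    IsEns ν en u Nlo Nhi E R B Φ c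

end

/-! ### The torus -/

/-- the torus `(ℝ / Lℤ)^n` -/
abbrev Tor (n : ℕ) (L : ℝ) := Fin n → AddCircle L

section
variable {n : ℕ} {L : ℝ}

/-- the point of the torus -/
def pr (L : ℝ) (z : Fin n → ℝ) : Tor n L := fun c => (z c : AddCircle L)

/-- the cube `[-r, r]^n` -/
def cube (n : ℕ) (r : ℝ) : Set (Fin n → ℝ) := {z | ∀ c, |z c| ≤ r}

/-- Euclidean norm -/
def el (z : Fin n → ℝ) : ℝ := √(∑ c, z c ^ 2)

/-- distance on the torus -/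
def tdist (x y : Tor n L) : ℝ := √(∑ c, ‖x c - y c‖ ^ 2)

/-- the vector `h e_c` -/
def ec (L : ℝ) (c : Fin n) (h : ℝ) : Tor n L := pr L (Pi.single c h)

/-- the block `i` of side `b` -/
def blk (n : ℕ) (L b : ℝ) (i : Fin n → ℕ) : Set (Tor n L) :=
  {x | ∀ c, ∃ t : ℝ, (i c : ℝ) * b ≤ t ∧ t < ((i c : ℝ) + 1) * b ∧ x c = (t : AddCircle L)}

open Classical in
/-- the number of points in `B` -/
def cnt {X : Type} (B : Set X) (S : Multiset X) : ℕ := Multiset.card (S.filter fun x => x ∈ B)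

/-- hat function on the circle, `ℓ ≤ L` -/
def ht (L ℓ : ℝ) (y : AddCircle L) : ℝ := if ℓ < L then max 0 (1 - ‖y‖ / ℓ) else 1

/-- hat function of side `ℓ` at the point `i ℓ` -/
def hat (n : ℕ) (L ℓ : ℝ) (i : Fin n → ℕ) (x : Tor n L) : ℝ :=
  ∏ c, ht L ℓ (x c - (((i c : ℝ) * ℓ : ℝ) : AddCircle L))

variable [Fact (0 < L)]

/-- kinetic energy `-Δ` -/
def Kp (F : Multiset (Tor n L) → ℂ) : ℝ≥0∞ :=
  ∑ c : Fin n, ⨆ k : ℕ, 4 ^ k * ∫⁻ x, dE volume F (x + ec L c ((2 : ℝ)⁻¹ ^ k)) x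

/-- hopping energy for the kernel `K` on `ℝ^n` -/
def Hp (K : (Fin n → ℝ) → ℝ≥0∞) (F : Multiset (Tor n L) → ℂ) : ℝ≥0∞ :=
  2⁻¹ * ∫⁻ z, K z * ∫⁻ x, dE volume F (x + pr L z) x

/-- potential energy -/
def Vp (v : ℝ → ℝ≥0∞) (F : Multiset (Tor n L) → ℂ) : ℝ≥0∞ :=
  2⁻¹ * ∫⁻ x, ∫⁻ y, v (tdist x y) * nE volume (an y (an x F))

/-- kinetic energy and hopping energy -/
def ken (μ : ℝ≥0∞) (K : (Fin n → ℝ) → ℝ≥0∞) (F : Multiset (Tor n L) → ℂ) : ℝ≥0∞ :=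
  μ * Kp F + Hp K F

/-- the energy -/
def en (μ : ℝ≥0∞) (K : (Fin n → ℝ) → ℝ≥0∞) (v : ℝ → ℝ≥0∞) (F : Multiset (Tor n L) → ℂ) : ℝ≥0∞ :=
  ken μ K F + Vp v F

/-! one particle -/

/-- `‖f(· + h) - f‖²` -/
def d1 (f : Tor n L → ℂ) (h : Tor n L) : ℝ≥0∞ := ∫⁻ x, ‖f (x + h) - f x‖ₑ ^ 2

/-- kinetic energy and hopping energy of one particle -/
def ken1 (μ : ℝ≥0∞) (K : (Fin n → ℝ) → ℝ≥0∞) (f : Tor n L → ℂ) : ℝ≥0∞ :=
  μ * (∑ c : Fin n, ⨆ k : ℕ, 4 ^ k * d1 f (ec L c ((2 : ℝ)⁻¹ ^ k))) +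
    2⁻¹ * ∫⁻ z, K z * d1 f (pr L z)

/-- Poincare inequality: the kinetic energy controls the variation at distance `r`, with
`r ^ m` in front -/
def PO (n : ℕ) (L : ℝ) [Fact (0 < L)] (m C : ℝ) (μ : ℝ≥0∞) (K : (Fin n → ℝ) → ℝ≥0∞) : Prop :=
  ∀ f : Tor n L → ℂ, Measurable f → (∃ B : ℝ, ∀ x, ‖f x‖ ≤ B) → ∀ r : ℝ, 1 ≤ r → r ≤ L →
    ∫⁻ z in cube n r, d1 f (pr L z) ≤ ENNReal.ofReal (C * r ^ (n + m)) * ken1 μ K f

/-! ### `N` particles -/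

/-- bounded symmetric wave functions of norm one -/
structure IsWf {N : ℕ} (Ψ : (Fin N → Tor n L) → ℂ) : Prop where
  meas : Measurable Ψ
  bdd : ∃ C : ℝ, ∀ x, ‖Ψ x‖ ≤ C
  symm : ∀ (π : Equiv.Perm (Fin N)) (x : Fin N → Tor n L), Ψ (x ∘ π) = Ψ x
  norm : ∫⁻ x, ‖Ψ x‖ₑ ^ 2 = 1

/-- the energy of an `N` particle wave function -/
def enN {N : ℕ} (μ : ℝ≥0∞) (K : (Fin n → ℝ) → ℝ≥0∞) (v : ℝ → ℝ≥0∞)
    (Ψ : (Fin N → Tor n L) → ℂ) : ℝ≥0∞ :=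
  μ * (∑ i : Fin N, ∑ c : Fin n, ⨆ k : ℕ, 4 ^ k *
      ∫⁻ x, ‖Ψ (Function.update x i (x i + ec L c ((2 : ℝ)⁻¹ ^ k))) - Ψ x‖ₑ ^ 2) +
    2⁻¹ * (∑ i : Fin N, ∫⁻ z, K z *
      ∫⁻ x, ‖Ψ (Function.update x i (x i + pr L z)) - Ψ x‖ₑ ^ 2) +
    ∫⁻ x, (∑ i : Fin N, ∑ j ∈ Finset.univ.filter fun j => i < j, v (tdist (x i) (x j))) *
      ‖Ψ x‖ₑ ^ 2

/-- the number of particles in the condensate, `L^(-n) ∫∫ γ(x, y) dx dy` -/
def condN {N : ℕ} (Ψ : (Fin N → Tor n L) → ℂ) : ℝ :=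
  (L ^ n)⁻¹ * ∑ i : Fin N, ∫ x, ∫ y, ((starRingEnd ℂ) (Ψ x) * Ψ (Function.update x i y)).re

end

end

end Pool.Agent.W761.CB
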