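import Pool.Agent.W761.CB.Core
import Pool.Agent.W761.CB.Par

/-!
# The main theorem from the parts
-/

set_option autoImplicit false

open MeasureTheory
open scoped ENNReal

namespace Pool.Agent.W761.CB

noncomputable section

/-- The main theorem, general form. -/
def S_CORE : Prop := ∀ (n : ℕ) (m σ g CP τ c : ℝ) (v : ℝ → ℝ≥0∞), 1 ≤ n → 0 < m → m < n →
  0 < σ → σ < 2 * n → g + 1 < 2 * n / m → 0 < CP → 0 < τ → 0 < c → Measurable v →
  ∫⁻ z : Fin n → ℝ, v (el z) ≠ 0 → ∫⁻ z : Fin n → ℝ, v (el z) ≠ ⊤ →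
  ∃ δ₀ c₀ : ℝ, 0 < δ₀ ∧ 0 < c₀ ∧ ∀ δ : ℝ, 0 < δ → δ ≤ δ₀ → ∃ c₁ L₀ : ℝ, 0 < c₁ ∧
    ∀ (L : ℝ) [Fact (0 < L)] (μ : ℝ≥0∞) (K : (Fin n → ℝ) → ℝ≥0∞), L₀ ≤ L → Measurable K →
    PO n L m CP μ K →
    μ * ENNReal.ofReal (δ ^ (2 / m)) +
      ∫⁻ z, K z * ENNReal.ofReal (min 1 (δ ^ (2 / m) * el z ^ 2)) ≤ ENNReal.ofReal (τ * δ) →
    (∀ z, ENNReal.ofReal (c * δ ^ (g + n / m) * (1 + δ ^ (1 / m) * el z) ^ (-(n + σ))) ≤ K z) →
    (∃ C : ℝ, ∀ (N : ℕ) (Φ : (Fin N → Tor n L) → ℂ), IsWf Φ →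
      ENNReal.ofReal (δ * N) ≤ enN μ K v Φ + ENNReal.ofReal C) ∧
    ∀ (N : ℕ) (Ψ : (Fin N → Tor n L) → ℂ), IsWf2 Ψ →
      (∀ (N' : ℕ) (Φ : (Fin N' → Tor n L) → ℂ), IsWf Φ →
        enN μ K v Ψ + ENNReal.ofReal (δ * N') ≤
          enN μ K v Φ + ENNReal.ofReal (δ * N + c₁ * L ^ (n - σ))) →
      c₀ * δ * L ^ n ≤ N ∧ c₀ * N ≤ δ * L ^ n ∧ c₀ * N ≤ condN Ψ

/-- the cost of the weights -/
theorem cost (n : ℕ) (m δ lam0 τ ℓ : ℝ) (hδ : 0 < δ) (hl0 : 0 < lam0)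
    (hl1 : lam0 ≤ 1) (hn : 1 ≤ n) (hℓ : lam0 * δ ^ (-(1 / m)) / 2 ≤ ℓ)
    (μ : ℝ≥0∞) (K : (Fin n → ℝ) → ℝ≥0∞)
    (h : μ * ENNReal.ofReal (δ ^ (2 / m)) +
      ∫⁻ z, K z * ENNReal.ofReal (min 1 (δ ^ (2 / m) * el z ^ 2)) ≤ ENNReal.ofReal (τ * δ)) :
    μ * (∑ c : Fin n, ⨆ k : ℕ, 4 ^ k *
        ENNReal.ofReal (sm n ℓ (Pi.single c ((2 : ℝ)⁻¹ ^ k)))) +
      2⁻¹ * ∫⁻ z, K z * ENNReal.ofReal (sm n ℓ z) ≤
      ENNReal.ofReal (64 * n / lam0 ^ 2 * (τ * δ)) := by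
  have hn1 : (1 : ℝ) ≤ n := by exact_mod_cast hn
  have hy : 0 < δ ^ (1 / m) := by positivity
  have hℓ0 : 0 < ℓ := lt_of_lt_of_le (by positivity) hℓ
  have hy2 : δ ^ (2 / m) = (δ ^ (1 / m)) ^ 2 := by
    rw [← Real.rpow_natCast, ← Real.rpow_mul hδ.le]
    congr 1
    push_cast
    ring
  have hinv : 1 / ℓ ≤ 2 / lam0 * δ ^ (1 / m) := by
    rw [div_le_iff₀ hℓ0]
    have h1 : δ ^ (1 / m) * δ ^ (-(1 / m)) = 1 := by
      rw [← Real.rpow_add hδ]; simp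
    calc (1 : ℝ) = 2 / lam0 * δ ^ (1 / m) * (lam0 * δ ^ (-(1 / m)) / 2) := by
          field_simp
          linarith
      _ ≤ 2 / lam0 * δ ^ (1 / m) * ℓ := by gcongr
  have hinv2 : (1 / ℓ) ^ 2 ≤ 4 / lam0 ^ 2 * δ ^ (2 / m) := by
    rw [hy2]
    calc (1 / ℓ) ^ 2 ≤ (2 / lam0 * δ ^ (1 / m)) ^ 2 := by gcongr
      _ = 4 / lam0 ^ 2 * (δ ^ (1 / m)) ^ 2 := by ring
  set C : ℝ := 64 * n / lam0 ^ 2 with hC
  have hC0 : 0 ≤ C := by positivity
  have t1 : ∀ (c : Fin n) (k : ℕ), 4 ^ k *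
      ENNReal.ofReal (sm n ℓ (Pi.single c ((2 : ℝ)⁻¹ ^ k))) ≤
        ENNReal.ofReal (64 / lam0 ^ 2 * δ ^ (2 / m)) := by
    intro c k
    have h4 : (4 : ℝ≥0∞) ^ k = ENNReal.ofReal (4 ^ k) := by
      rw [ENNReal.ofReal_pow (by norm_num)]
      norm_num
    rw [h4, ← ENNReal.ofReal_mul (by positivity)]
    apply ENNReal.ofReal_le_ofReal
    have h5 : ∑ c', |(Pi.single c ((2 : ℝ)⁻¹ ^ k) : Fin n → ℝ) c'| = (2 : ℝ)⁻¹ ^ k := by
      rw [Finset.sum_eq_single c]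
      · rw [Pi.single_eq_same, abs_of_pos (by positivity)]
      · intro b _ hb
        rw [Pi.single_eq_of_ne hb, abs_zero]
      · simp
    unfold sm
    rw [h5]
    have h6 : (min 1 ((2 : ℝ)⁻¹ ^ k / ℓ)) ^ 2 ≤ ((2 : ℝ)⁻¹ ^ k / ℓ) ^ 2 := by
      apply pow_le_pow_left₀ (by positivity) (min_le_right _ _)
    have h7 : ((2 : ℝ)⁻¹ ^ k / ℓ) ^ 2 = (4 ^ k)⁻¹ * (1 / ℓ) ^ 2 := by
      have : ((2 : ℝ)⁻¹ ^ k) ^ 2 = (4 ^ k)⁻¹ := by
        rw [← pow_mul, mul_comm, pow_mul, ← inv_pow]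
        norm_num
      rw [div_pow, this]
      ring
    calc (4 : ℝ) ^ k * (16 * (min 1 ((2 : ℝ)⁻¹ ^ k / ℓ)) ^ 2)
        ≤ 4 ^ k * (16 * ((4 ^ k)⁻¹ * (1 / ℓ) ^ 2)) := by rw [← h7]; gcongr
      _ = 16 * (1 / ℓ) ^ 2 := by field_simp
      _ ≤ 16 * (4 / lam0 ^ 2 * δ ^ (2 / m)) := by gcongr
      _ = 64 / lam0 ^ 2 * δ ^ (2 / m) := by ring
  have t2 : ∀ z : Fin n → ℝ, 2⁻¹ * (K z * ENNReal.ofReal (sm n ℓ z)) ≤
      ENNReal.ofReal C * (K z * ENNReal.ofReal (min 1 (δ ^ (2 / m) * el z ^ 2))) := by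
    intro z
    have h1 : (∑ c, |z c|) ^ 2 ≤ n * el z ^ 2 := by
      have h2 := sq_sum_le_card_mul_sum_sq (s := (Finset.univ : Finset (Fin n)))
        (f := fun c => |z c|)
      simp only [sq_abs, Finset.card_univ, Fintype.card_fin] at h2
      unfold el
      rw [Real.sq_sqrt (Finset.sum_nonneg fun _ _ => sq_nonneg _)]
      exact h2
    have h3 : (min 1 ((∑ c, |z c|) / ℓ)) ^ 2 ≤
        4 * n / lam0 ^ 2 * min 1 (δ ^ (2 / m) * el z ^ 2) := by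
      have hs0 : 0 ≤ (∑ c, |z c|) / ℓ := by positivity
      have h4 : (min 1 ((∑ c, |z c|) / ℓ)) ^ 2 ≤ 1 := by
        apply pow_le_one₀ (le_min zero_le_one hs0) (min_le_left _ _)
      have h5 : (min 1 ((∑ c, |z c|) / ℓ)) ^ 2 ≤
          4 * n / lam0 ^ 2 * (δ ^ (2 / m) * el z ^ 2) := by
        calc (min 1 ((∑ c, |z c|) / ℓ)) ^ 2 ≤ ((∑ c, |z c|) / ℓ) ^ 2 :=
              pow_le_pow_left₀ (le_min zero_le_one hs0) (min_le_right _ _) 2
          _ = (∑ c, |z c|) ^ 2 * (1 / ℓ) ^ 2 := by ring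
          _ ≤ (n * el z ^ 2) * (4 / lam0 ^ 2 * δ ^ (2 / m)) := by gcongr
          _ = _ := by ring
      rw [mul_min_of_nonneg _ _ (by positivity)]
      refine le_min ?_ h5
      refine h4.trans ?_
      rw [mul_one, le_div_iff₀ (by positivity)]
      have hl2 : lam0 ^ 2 ≤ 1 := pow_le_one₀ hl0.le hl1
      linarith only [hl2, hn1]
    have h6 : (2 : ℝ≥0∞)⁻¹ = ENNReal.ofReal (1 / 2) := by
      rw [ENNReal.ofReal_div_of_pos (by norm_num)]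
      simp
    rw [mul_left_comm, mul_left_comm (ENNReal.ofReal C)]
    refine mul_le_mul_of_nonneg_left ?_ zero_le
    rw [h6, ← ENNReal.ofReal_mul (by norm_num), ← ENNReal.ofReal_mul hC0]
    apply ENNReal.ofReal_le_ofReal
    unfold sm
    have h7 : 0 ≤ min 1 (δ ^ (2 / m) * el z ^ 2) := le_min zero_le_one (by positivity)
    calc 1 / 2 * (16 * (min 1 ((∑ c, |z c|) / ℓ)) ^ 2)
        = 8 * (min 1 ((∑ c, |z c|) / ℓ)) ^ 2 := by ring
      _ ≤ 8 * (4 * n / lam0 ^ 2 * min 1 (δ ^ (2 / m) * el z ^ 2)) := by gcongr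
      _ ≤ C * min 1 (δ ^ (2 / m) * el z ^ 2) := by
          have h8 : 8 * (4 * n / lam0 ^ 2) ≤ C := by
            rw [hC, mul_div_assoc', div_le_div_iff_of_pos_right (by positivity)]
            linarith
          rw [← mul_assoc]
          exact mul_le_mul_of_nonneg_right h8 h7
  calc μ * (∑ c : Fin n, ⨆ k : ℕ, 4 ^ k *
        ENNReal.ofReal (sm n ℓ (Pi.single c ((2 : ℝ)⁻¹ ^ k)))) +
      2⁻¹ * ∫⁻ z, K z * ENNReal.ofReal (sm n ℓ z)
      ≤ μ * (∑ _c : Fin n, ENNReal.ofReal (64 / lam0 ^ 2 * δ ^ (2 / m))) +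
        ∫⁻ z, ENNReal.ofReal C * (K z * ENNReal.ofReal (min 1 (δ ^ (2 / m) * el z ^ 2))) := by
        apply add_le_add
        · gcongr with c
          exact iSup_le (t1 c)
        · rw [← lintegral_const_mul' _ _ (by simp)]
          exact lintegral_mono t2
    _ = ENNReal.ofReal C * (μ * ENNReal.ofReal (δ ^ (2 / m)) +
        ∫⁻ z, K z * ENNReal.ofReal (min 1 (δ ^ (2 / m) * el z ^ 2))) := by
        rw [lintegral_const_mul' _ _ (by simp), mul_add]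
        congr 1
        rw [Finset.sum_const, Finset.card_univ, Fintype.card_fin, nsmul_eq_mul,
          mul_left_comm (ENNReal.ofReal C), hC]
        congr 1
        rw [← ENNReal.ofReal_natCast, ← ENNReal.ofReal_mul (by positivity),
          ← ENNReal.ofReal_mul (by positivity)]
        congr 1
        ring
    _ ≤ ENNReal.ofReal C * ENNReal.ofReal (τ * δ) := by gcongr
    _ = ENNReal.ofReal (C * (τ * δ)) := by rw [← ENNReal.ofReal_mul hC0]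

/-- lower bound of the kernel -/
theorem kern (n : ℕ) (m σ g δ lam0 c ℓ : ℝ) (hδ : 0 < δ) (hσ : 0 < σ)
    (hl1 : lam0 ≤ 1) (hc : 0 < c) (hℓ0 : 0 < ℓ) (hℓ : ℓ ≤ lam0 * δ ^ (-(1 / m)))
    (K : (Fin n → ℝ) → ℝ≥0∞)
    (h : ∀ z, ENNReal.ofReal (c * δ ^ (g + n / m) * (1 + δ ^ (1 / m) * el z) ^ (-(n + σ))) ≤ K z)
    (j : ℕ) (z : Fin n → ℝ) (hz : ∀ c, |z c| ≤ 2 * (2 ^ j * ℓ)) :
    ENNReal.ofReal (c * δ ^ (g + n / m) * (1 + 2 * √n) ^ (-(n + σ)) *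
      (2 : ℝ) ^ (-((n + σ) * j))) ≤ K z := by
  refine le_trans (ENNReal.ofReal_le_ofReal ?_) (h z)
  have h1 : el z ≤ √n * (2 * (2 ^ j * ℓ)) := by
    unfold el
    rw [Real.sqrt_le_left (by positivity), mul_pow, Real.sq_sqrt (by positivity)]
    calc ∑ c, z c ^ 2 ≤ ∑ _c : Fin n, (2 * (2 ^ j * ℓ)) ^ 2 := by
          apply Finset.sum_le_sum
          intro i _
          rw [← sq_abs]
          exact pow_le_pow_left₀ (abs_nonneg _) (hz i) 2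
      _ = n * (2 * (2 ^ j * ℓ)) ^ 2 := by simp
  have h2 : δ ^ (1 / m) * ℓ ≤ 1 := by
    have h3 : δ ^ (1 / m) * δ ^ (-(1 / m)) = 1 := by
      rw [← Real.rpow_add hδ]; simp
    calc δ ^ (1 / m) * ℓ ≤ δ ^ (1 / m) * (lam0 * δ ^ (-(1 / m))) := by gcongr
      _ = lam0 * (δ ^ (1 / m) * δ ^ (-(1 / m))) := by ring
      _ ≤ 1 := by rw [h3, mul_one]; exact hl1
  have h2j : (1 : ℝ) ≤ 2 ^ j := one_le_pow₀ (by norm_num)
  have hel : 0 ≤ el z := Real.sqrt_nonneg _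
  have h4 : 1 + δ ^ (1 / m) * el z ≤ (1 + 2 * √n) * 2 ^ j := by
    calc 1 + δ ^ (1 / m) * el z ≤ 1 + δ ^ (1 / m) * (√n * (2 * (2 ^ j * ℓ))) := by gcongr
      _ = 1 + 2 * √n * 2 ^ j * (δ ^ (1 / m) * ℓ) := by ring
      _ ≤ 1 + 2 * √n * 2 ^ j * 1 := by gcongr
      _ ≤ (1 + 2 * √n) * 2 ^ j := by linarith
  rw [mul_assoc]
  apply mul_le_mul_of_nonneg_left _ (by positivity)
  have h5 : (2 : ℝ) ^ (-((n + σ) * j)) = ((2 : ℝ) ^ j) ^ (-((n : ℝ) + σ)) := by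
    rw [← Real.rpow_natCast, ← Real.rpow_mul (by norm_num)]
    congr 1
    ring
  rw [h5, ← Real.mul_rpow (by positivity) (by positivity)]
  apply Real.rpow_le_rpow_of_nonpos (by positivity) h4
  have : (0 : ℝ) ≤ n := by positivity
  linarith

theorem main_of (hS : S_STEP) (hB : S_BASE) (hBOT : S_BOT) (hM : S_MEAS) (hH : S_HAT)
    (hR : S_REF) (hSM : S_SM) (hG : S_GK) (hD : S_DIA) (hDE : S_DE) (hTF : S_TF) (hCOH : S_COH)
    (hLA : S_LA) (hTAIL : S_TAIL) (hCONV : S_CONV) (hLOWN : S_LOWN) (hTRIAL : S_TRIAL)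
    (hTRUNC : S_TRUNC) : S_CORE := by
  intro n m σ g CP τ c v hn hm hmn hσ hσn hgn hCP hτ hc hv hv0 hvt
  set v₁ : ℝ := (∫⁻ z : Fin n → ℝ, v (el z)).toReal with hv₁
  have hv₁0 : 0 < v₁ := ENNReal.toReal_pos hv0 hvt
  have hv1 : ∫⁻ z : Fin n → ℝ, v (el z) ≤ ENNReal.ofReal v₁ := by
    rw [hv₁, ENNReal.ofReal_toReal hvt]
  obtain ⟨CA0, b₀, hCA0, hb₀, hla⟩ := hLA n m CP v hn hm hmn hCP.le hv hv0
  set CA : ℝ := CA0 + 1 with hCA
  have hCApos : 0 < CA := by rw [hCA]; linarith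
  obtain ⟨lam, mu, ρ, q, hlam0, hlm, hmu1, hρ0, hmuρ, hlam2, hlams, hq, lam0, Cn, δ₀, c₁, η4,
    hl00, hl01, hCn0, hδ₀, hc₁, hη4, hpar⟩ :=
    par n hn m σ g CP CA b₀ c τ v₁ hm hmn hσ hσn hgn hCP hCApos hb₀ hc hτ hv₁0
  refine ⟨δ₀, min (1 / (8 * v₁)) (min (1 / Cn) (c₁ / Cn)), hδ₀,
    lt_min (by positivity) (lt_min (by positivity) (by positivity)), ?_⟩
  intro δ hδ hδle
  obtain ⟨hδ1, s, s', hfin⟩ := hpar δ hδ hδle
  set Λ : ℝ := lam0 * δ ^ (-(1 / m)) with hΛ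
  have hΛ0 : 0 < Λ := by positivity
  set Γ : ℝ := c * δ ^ (g + n / m) * (1 + 2 * √n) ^ (-(n + σ)) with hΓ
  have hΓ0 : 0 < Γ := by positivity
  set κ₀ : ℝ := η4 * δ * ((Λ / 2) ^ n * Γ) with hκ₀
  have hκ₀0 : 0 < κ₀ := by positivity
  -- the tolerance is small on large tori
  obtain ⟨J₀, hJ₀⟩ : ∃ J₀ : ℕ, ∀ J : ℕ, J₀ ≤ J →
      κ₀ * (2 : ℝ) ^ (-(σ * J)) ≤ min (δ ^ 2) (δ ^ 2 / (8 * v₁)) := by
    have h1 : (2 : ℝ) ^ (-σ) < 1 := Real.rpow_lt_one_of_one_lt_of_neg (by norm_num) (by linarith)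
    have h2 : (0 : ℝ) < min (δ ^ 2) (δ ^ 2 / (8 * v₁)) / κ₀ :=
      div_pos (lt_min (by positivity) (by positivity)) hκ₀0
    obtain ⟨J₀, hJ⟩ := exists_pow_lt_of_lt_one h2 h1
    refine ⟨J₀, fun J hJJ => ?_⟩
    have h3 : (2 : ℝ) ^ (-(σ * J)) = ((2 : ℝ) ^ (-σ)) ^ J := by
      rw [← Real.rpow_natCast, ← Real.rpow_mul (by norm_num)]
      congr 1
      ring
    have h4 : ((2 : ℝ) ^ (-σ)) ^ J ≤ ((2 : ℝ) ^ (-σ)) ^ J₀ :=
      pow_le_pow_of_le_one (by positivity) h1.le hJJ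
    rw [lt_div_iff₀ hκ₀0] at hJ
    rw [h3]
    have h5 := mul_le_mul_of_nonneg_left h4 hκ₀0.le
    linarith only [h5, hJ]
  refine ⟨κ₀ * (Λ / 2) ^ σ / 2, max (max 1 (v₁ / δ)) (Λ / 2 * 2 ^ (J₀ + 3)), by positivity, ?_⟩
  intro L _ μ K hL₀ hK hPO hcost hLB
  have hLpos : 0 < L := Fact.out
  have hL1 : 1 ≤ L := ((le_max_left _ _).trans (le_max_left _ _)).trans hL₀
  have hLv : v₁ / δ ≤ L := ((le_max_right _ _).trans (le_max_left _ _)).trans hL₀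
  have hLJ : Λ / 2 * 2 ^ (J₀ + 3) ≤ L := (le_max_right _ _).trans hL₀
  have hV : (0 : ℝ) < L ^ n := by positivity
  have hVL : L ≤ L ^ n := by
    calc L = L ^ 1 := (pow_one L).symm
      _ ≤ L ^ n := pow_le_pow_right₀ hL1 hn
  -- the smallest scale
  have h2J : (1 : ℝ) ≤ 2 ^ (J₀ + 3) := one_le_pow₀ (by norm_num)
  have hLΛ : 2 ^ (J₀ + 3) ≤ L / (Λ / 2) := by
    rw [le_div_iff₀ (by positivity)]
    linarith
  obtain ⟨J, hJ1, hJ2⟩ := near 2 (L / (Λ / 2)) (by norm_num) (h2J.trans hLΛ)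
  have hJJ : J₀ + 3 ≤ J := by
    by_contra hcon
    have h3 : (2 : ℝ) ^ (J + 1) ≤ 2 ^ (J₀ + 3) := pow_le_pow_right₀ (by norm_num) (by omega)
    linarith
  have h2Jp : (0 : ℝ) < 2 ^ J := by positivity
  set ℓ : ℝ := L / 2 ^ J with hℓdef
  have hℓ0 : 0 < ℓ := by positivity
  have hLℓ : L = 2 ^ J * ℓ := by rw [hℓdef]; field_simp
  have hℓ1 : Λ / 2 ≤ ℓ := by
    rw [hℓdef, le_div_iff₀ h2Jp]
    rw [le_div_iff₀ (by positivity)] at hJ1
    linarith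
  have hℓ2 : ℓ ≤ Λ := by
    rw [hℓdef, div_le_iff₀ h2Jp]
    rw [div_lt_iff₀ (by positivity), pow_succ] at hJ2
    linarith
  obtain ⟨hb1, hb2, hdens, ω0, hω0, hcond⟩ := hfin ℓ hℓ1 hℓ2
  have hla' : ∀ t : ℕ, b₀ ≤ ℓ / 2 ^ t → _ := fun t ht =>
    hla L (ℓ / 2 ^ t) (2 ^ J * 2 ^ t) μ K ht (by
      push_cast
      rw [hLℓ]
      field_simp) (by
      have : 2 ^ 3 ≤ 2 ^ J := Nat.pow_le_pow_right (by norm_num) (by omega)
      have h1 : 1 ≤ 2 ^ t := Nat.one_le_two_pow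
      simpa using Nat.mul_le_mul this h1) hK hPO
  -- upper bound of the density of states of low energy
  have hdens' : ∀ (N : ℕ) (Ψ' : (Fin N → Tor n L) → ℂ) (E tol : ℝ), IsWf Ψ' → 0 ≤ E → 0 ≤ tol →
      tol ≤ δ ^ 2 → enN μ K v Ψ' = ENNReal.ofReal E → E ≤ δ * N + tol * L ^ n →
      (N : ℝ) ≤ Cn * δ * L ^ n := by
    intro N Ψ' E tol hΨ' hE0 htol0 htol1 hEe hEle
    obtain ⟨hcn0, F, hF, hF1, hFN, hFe, hFc⟩ := hCONV n L μ K v N Ψ' hK hv hΨ'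
    rw [hEe] at hFe
    apply hdens N (L ^ n) tol (Nat.cast_nonneg N) hV.le htol0 htol1
    have h1 := (hla' s' hb2 F hF).2
    rw [hFN, hF1, hFe, mul_one, ← ENNReal.ofReal_mul (by positivity),
      ← ENNReal.ofReal_add (by positivity) (by positivity),
      ENNReal.ofReal_le_ofReal_iff (by positivity)] at h1
    have h2 : ((2 ^ J * 2 ^ s' : ℕ) : ℝ) ^ n = L ^ n / (ℓ / 2 ^ s') ^ n := by
      rw [eq_div_iff (by positivity), ← mul_pow]
      congr 1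
      push_cast
      rw [hLℓ]
      field_simp
    rw [h2] at h1
    refine h1.trans ?_
    gcongr
    rw [hCA]
    linarith
  refine ⟨⟨δ * (Cn * δ * L ^ n), fun N Φ hΦ => ?_⟩, ?_⟩
  · by_cases hfin : enN μ K v Φ = ⊤
    · rw [hfin, top_add]
      exact le_top
    have hEe : enN μ K v Φ = ENNReal.ofReal (enN μ K v Φ).toReal :=
      (ENNReal.ofReal_toReal hfin).symm
    rcases le_total (δ * N) (enN μ K v Φ).toReal with h | h
    · rw [hEe]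
      exact (ENNReal.ofReal_le_ofReal h).trans le_self_add
    · have h1 := hdens' N Φ _ 0 hΦ ENNReal.toReal_nonneg le_rfl (by positivity) hEe
        (by linarith)
      exact (ENNReal.ofReal_le_ofReal (mul_le_mul_of_nonneg_left h1 hδ.le)).trans le_add_self
  intro N Ψ hΨ hnear
  -- the tolerance
  set tol : ℝ := κ₀ * (2 : ℝ) ^ (-(σ * J)) with htol
  have htol0 : 0 < tol := by positivity
  have htolm := hJ₀ J (by omega)
  have htol1 : tol ≤ δ ^ 2 := htolm.trans (min_le_left _ _)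
  have htol2 : tol ≤ δ ^ 2 / (8 * v₁) := htolm.trans (min_le_right _ _)
  have htolV : κ₀ * (Λ / 2) ^ σ / 2 * L ^ (n - σ) ≤ tol * L ^ n / 2 := by
    have h1 : L ^ ((n : ℝ) - σ) = L ^ n * (2 : ℝ) ^ (-(σ * J)) * ℓ ^ (-σ) := by
      rw [Real.rpow_sub hLpos, Real.rpow_natCast, div_eq_mul_inv, ← Real.rpow_neg hLpos.le]
      nth_rewrite 2 [hLℓ]
      rw [Real.mul_rpow h2Jp.le hℓ0.le, ← Real.rpow_natCast 2 J, ← Real.rpow_mul (by norm_num)]
      rw [show (J : ℝ) * -σ = -(σ * J) by ring]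
      ring
    have h2 : (Λ / 2) ^ σ * ℓ ^ (-σ) ≤ 1 := by
      rw [Real.rpow_neg hℓ0.le, ← div_eq_mul_inv, div_le_one (by positivity)]
      exact Real.rpow_le_rpow (by positivity) hℓ1 hσ.le
    rw [h1]
    calc κ₀ * (Λ / 2) ^ σ / 2 * (L ^ n * (2 : ℝ) ^ (-(σ * J)) * ℓ ^ (-σ))
        = tol * L ^ n / 2 * ((Λ / 2) ^ σ * ℓ ^ (-σ)) := by rw [htol]; ring
      _ ≤ tol * L ^ n / 2 * 1 := by gcongr
      _ = tol * L ^ n / 2 := mul_one _
  -- finiteness of the energy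
  have hfinite : enN μ K v Ψ ≠ ⊤ := by
    obtain ⟨Φ, hΦ, hΦe⟩ := hTRIAL n L v₁ μ K v 0 hv hv₁0.le hv1
    have h1 := hnear 0 Φ hΦ
    have h2 : enN μ K v Φ + ENNReal.ofReal (δ * N + κ₀ * (Λ / 2) ^ σ / 2 * L ^ ((n : ℝ) - σ)) < ⊤ :=
      ENNReal.add_lt_top.2 ⟨lt_of_le_of_lt hΦe ENNReal.ofReal_lt_top, ENNReal.ofReal_lt_top⟩
    exact (lt_of_le_of_lt (le_self_add.trans h1) h2).ne
  -- it is enough to consider bounded wave functions
  have red : ∀ ε : ℝ, 0 < ε → min (1 / (8 * v₁)) (min (1 / Cn) (c₁ / Cn)) * δ * L ^ n ≤ N ∧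
      min (1 / (8 * v₁)) (min (1 / Cn) (c₁ / Cn)) * N ≤ δ * L ^ n ∧
      min (1 / (8 * v₁)) (min (1 / Cn) (c₁ / Cn)) * N ≤ condN Ψ + ε := by
    intro ε hε
    set ε' : ℝ := min ε (tol * L ^ n / 2) with hε'
    have hε'0 : 0 < ε' := lt_min hε (by positivity)
    obtain ⟨Ψ', hΨ', hΨe, hΨc⟩ := hTRUNC n L μ K v N Ψ ε' hK hv hε'0 hΨ hfinite
    have hnear' : ∀ (N' : ℕ) (Φ : (Fin N' → Tor n L) → ℂ), IsWf Φ →
        enN μ K v Ψ' + ENNReal.ofReal (δ * N') ≤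
          enN μ K v Φ + ENNReal.ofReal (δ * N + tol * L ^ n) := by
      intro N' Φ hΦ
      calc enN μ K v Ψ' + ENNReal.ofReal (δ * N')
          ≤ enN μ K v Ψ + ENNReal.ofReal ε' + ENNReal.ofReal (δ * N') := by gcongr
        _ = enN μ K v Ψ + ENNReal.ofReal (δ * N') + ENNReal.ofReal ε' := by ring
        _ ≤ enN μ K v Φ + ENNReal.ofReal (δ * N + κ₀ * (Λ / 2) ^ σ / 2 * L ^ ((n : ℝ) - σ)) +
            ENNReal.ofReal ε' := add_le_add (hnear N' Φ hΦ) le_rfl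
        _ = enN μ K v Φ + ENNReal.ofReal (δ * N + κ₀ * (Λ / 2) ^ σ / 2 * L ^ ((n : ℝ) - σ) + ε') := by
            rw [add_assoc, ← ENNReal.ofReal_add (by positivity) hε'0.le]
        _ ≤ enN μ K v Φ + ENNReal.ofReal (δ * N + tol * L ^ n) := by
            refine add_le_add le_rfl (ENNReal.ofReal_le_ofReal ?_)
            have h9 : ε' ≤ tol * L ^ n / 2 := min_le_right _ _
            linarith only [h9, htolV]
    have hfin' : enN μ K v Ψ' ≠ ⊤ :=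
      (lt_of_le_of_lt hΨe (ENNReal.add_lt_top.2 ⟨lt_top_iff_ne_top.2 hfinite,
        ENNReal.ofReal_lt_top⟩)).ne
    set E : ℝ := (enN μ K v Ψ').toReal with hE
    have hE0 : 0 ≤ E := ENNReal.toReal_nonneg
    have hEe : enN μ K v Ψ' = ENNReal.ofReal E := (ENNReal.ofReal_toReal hfin').symm
    have hN0 : (0 : ℝ) ≤ N := Nat.cast_nonneg N
    -- comparison with the vacuum
    have hEle : E ≤ δ * N + tol * L ^ n := by
      obtain ⟨Φ, hΦ, hΦe⟩ := hTRIAL n L v₁ μ K v 0 hv hv₁0.le hv1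
      have h1 := hnear' 0 Φ hΦ
      have h2 : enN μ K v Φ = 0 := by
        have : ENNReal.ofReal (((0 : ℕ) : ℝ) ^ 2 * v₁ / (2 * L ^ n)) = 0 := by simp
        rw [this] at hΦe
        exact le_antisymm hΦe zero_le
      rw [h2, zero_add, hEe] at h1
      have h3 := le_self_add.trans h1
      rwa [ENNReal.ofReal_le_ofReal_iff (by positivity)] at h3
    set e : ℝ := δ * N + tol * L ^ n - E with he
    have he0 : 0 ≤ e := by rw [he]; linarith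
    have hlow := hLOWN n L μ K v δ e hK hv hδ.le he0 (by
      intro N' Φ hΦ
      have h1 := hnear' N' Φ hΦ
      rw [hEe, show δ * N + tol * L ^ n = E + e by rw [he]; ring,
        ENNReal.ofReal_add hE0 he0, add_left_comm] at h1
      exact (ENNReal.add_le_add_iff_left ENNReal.ofReal_ne_top).1 h1)
    -- lower bound of the density
    have hNlo : δ / (8 * v₁) * L ^ n ≤ N := by
      set x : ℝ := δ * L ^ n / v₁ with hx
      have hx1 : 1 ≤ x := by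
        rw [hx, le_div_iff₀ hv₁0, one_mul]
        rw [div_le_iff₀ hδ] at hLv
        have h9 := mul_le_mul_of_nonneg_left hVL hδ.le
        linarith only [h9, hLv]
      set N' : ℕ := ⌊x⌋₊ with hN'
      have hN'1 : (N' : ℝ) ≤ x := Nat.floor_le (by linarith)
      have hN'2 : x / 2 ≤ N' := by
        have h1 : x < N' + 1 := Nat.lt_floor_add_one x
        have h2 : (1 : ℝ) ≤ N' := by
          have : 1 ≤ N' := Nat.le_floor (by simpa using hx1)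
          exact_mod_cast this
        linarith
      obtain ⟨Φ, hΦ, hΦe⟩ := hTRIAL n L v₁ μ K v N' hv hv₁0.le hv1
      have h1 := (hnear' N' Φ hΦ).trans (add_le_add_left hΦe _)
      rw [hEe, ← ENNReal.ofReal_add hE0 (by positivity),
        ← ENNReal.ofReal_add (by positivity) (by positivity),
        ENNReal.ofReal_le_ofReal_iff (by positivity)] at h1
      have h2 : (N' : ℝ) ^ 2 * v₁ / (2 * L ^ n) ≤ δ * N' / 2 := by
        rw [div_le_iff₀ (by positivity)]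
        have h3 : (N' : ℝ) * v₁ ≤ δ * L ^ n := by
          rw [hx, le_div_iff₀ hv₁0] at hN'1
          exact hN'1
        have h9 := mul_le_mul_of_nonneg_left h3 (Nat.cast_nonneg (α := ℝ) N')
        linarith only [h9]
      have h3 : δ * (x / 2) ≤ δ * N' := by gcongr
      have h4 : δ * (x / 2) / 2 - tol * L ^ n ≤ δ * N := by linarith
      have h5 : tol * L ^ n ≤ δ ^ 2 / (8 * v₁) * L ^ n := by gcongr
      have h6 : δ * (x / 2) / 2 - δ ^ 2 / (8 * v₁) * L ^ n = δ * (δ / (8 * v₁) * L ^ n) := by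
        rw [hx]
        field_simp
        ring
      have h7 : δ * (δ / (8 * v₁) * L ^ n) ≤ δ * N := by linarith
      exact le_of_mul_le_mul_left h7 hδ
    -- Fock space
    obtain ⟨hcn0, F, hF, hF1, hFN, hFe, hFc⟩ := hCONV n L μ K v N Ψ' hK hv hΨ'
    rw [hEe] at hFe
    -- upper bound of the density
    have hNhi : (N : ℝ) ≤ Cn * δ * L ^ n :=
      hdens' N Ψ' E tol hΨ' hE0 htol0.le htol1 hEe hEle
    -- the chain of scales
    have hℓb : b₀ ≤ ℓ := by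
      have h1 : ℓ / 2 ^ s ≤ ℓ := div_le_self hℓ0.le (one_le_pow₀ (by norm_num))
      linarith
    have hbs : 0 < (ℓ / 2 ^ s) ^ n := by positivity
    have hcoh : ∀ F : Multiset (Tor n L) → ℂ, EB F → ENNReal.ofReal (ℓ ^ n) * nuE volume F ≤
        ∑ i, nE volume (ag volume (hf n L ℓ (2 ^ J) i) F) +
          ENNReal.ofReal (ℓ ^ n * (CP * 2 ^ (n + m) * ℓ ^ m)) * en μ K v F := by
      intro F hF
      have h2q : 2 ≤ 2 ^ J := by
        calc 2 = 2 ^ 1 := rfl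
          _ ≤ 2 ^ J := Nat.pow_le_pow_right (by norm_num) (by omega)
      refine (hCOH n L ℓ m CP (2 ^ J) μ K hK hCP.le hPO h2q (by rw [hLℓ]; push_cast; rfl)
        (by linarith) F hF).trans ?_
      gcongr
      · exact le_rfl
      · exact le_self_add
    have hKM : 1 ≤ 4 ^ n / (ℓ / 2 ^ s) ^ n * ℓ ^ n := by
      rw [div_mul_eq_mul_div, one_le_div hbs, ← mul_pow]
      apply pow_le_pow_left₀ (by positivity)
      have h1 : ℓ / 2 ^ s ≤ ℓ := div_le_self hℓ0.le (one_le_pow₀ (by norm_num))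
      linarith
    have htail : ∀ F : Multiset (Tor n L) → ℂ, EB F →
        ∑ i, tl volume (hf n L ℓ (2 ^ J) i) (4 ^ n / (ℓ / 2 ^ s) ^ n * ℓ ^ n) F ≤
          ENNReal.ofReal (CA * (ℓ / 2 ^ s) ^ n) * en μ K v F := by
      intro F hF
      have h2s : (2 : ℝ) ^ s * (ℓ / 2 ^ s) = ℓ := by field_simp
      have h1 := hTAIL n L (ℓ / 2 ^ s) (2 ^ J) s Nat.one_le_two_pow (by
        push_cast
        rw [hLℓ]
        field_simp) F hF
      rw [h2s] at h1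
      refine (h1.trans (hla' s hb1 F hF).1).trans ?_
      gcongr
      rw [hCA]
      linarith
    have hXX : ∀ j : ℕ, j ≤ J → μ * (∑ c : Fin n, ⨆ k : ℕ, 4 ^ k *
        ENNReal.ofReal (sm n (2 ^ j * ℓ) (Pi.single c ((2 : ℝ)⁻¹ ^ k)))) +
        2⁻¹ * ∫⁻ z, K z * ENNReal.ofReal (sm n (2 ^ j * ℓ) z) ≤
          ENNReal.ofReal (64 * n / lam0 ^ 2 * (τ * δ)) := by
      intro j _
      refine cost n m δ lam0 τ (2 ^ j * ℓ) hδ hl00 hl01 hn ?_ μ K hcost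
      have h1 : (1 : ℝ) ≤ 2 ^ j := one_le_pow₀ (by norm_num)
      calc lam0 * δ ^ (-(1 / m)) / 2 ≤ ℓ := hℓ1
        _ = 1 * ℓ := (one_mul _).symm
        _ ≤ 2 ^ j * ℓ := by gcongr
    set Q : ℝ := L ^ n * condN Ψ' with hQ
    have hQ0 : 0 ≤ Q := by positivity
    have hineq := core hS hB hBOT hM hH hR hSM hG hD hDE hTF hℓ0 hLℓ hK hv hv₁0.le hv1 hδ.le he0
      hN0 hE0 hQ0 htol0.le (by rw [he]; linarith) hF hF1 hFN hFe.le (by rw [hFc]) hlow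
      (P := CP * 2 ^ (n + m) * ℓ ^ m) (Tl := CA * (ℓ / 2 ^ s) ^ n)
      (K' := 4 ^ n / (ℓ / 2 ^ s) ^ n) (by positivity) (by positivity) (by positivity) hKM hcoh
      htail (σ := σ) (Γ := Γ) (X := 64 * n / lam0 ^ 2 * (τ * δ)) hΓ0 (by positivity) hσ
      (fun j _ _ => kern n m σ g δ lam0 c ℓ hδ hσ hl01 hc hℓ0 hℓ2 K hLB j) hXX hNhi hω0
      hlam0 hlm hmu1 hρ0 hmuρ hlam2 hlams rfl rfl rfl rfl rfl rfl hq
    have hTle : tol * (2 : ℝ) ^ (σ * J) / (ℓ ^ n * Γ) ≤ η4 * δ := by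
      have h1 : (2 : ℝ) ^ (-(σ * J)) * (2 : ℝ) ^ (σ * J) = 1 := by
        rw [← Real.rpow_add (by norm_num)]; simp
      rw [div_le_iff₀ (by positivity)]
      calc tol * (2 : ℝ) ^ (σ * J) = κ₀ * ((2 : ℝ) ^ (-(σ * J)) * (2 : ℝ) ^ (σ * J)) := by
            rw [htol]; ring
        _ = η4 * δ * ((Λ / 2) ^ n * Γ) := by rw [h1, mul_one]
        _ ≤ η4 * δ * (ℓ ^ n * Γ) := by gcongr
    have hEV : E / L ^ n ≤ δ * (Cn * δ) + tol := by
      rw [div_le_iff₀ hV]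
      have h1 : δ * N ≤ δ * (Cn * δ * L ^ n) := by gcongr
      linarith
    have hcond' := hcond (δ / (8 * v₁)) _ _ _ _ _ _ _ (Q / (L ^ n) ^ 2) (E / L ^ n) tol
      (by positivity) rfl rfl htol0.le htol1 hEV (by positivity) hTle rfl rfl rfl rfl rfl (by
        have h1 := hNlo.trans hineq
        exact le_of_mul_le_mul_right h1 hV)
    have hcN : c₁ * δ * L ^ n ≤ condN Ψ' := by
      have h1 : Q / (L ^ n) ^ 2 = condN Ψ' / L ^ n := by rw [hQ]; field_simp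
      rw [h1, le_div_iff₀ hV] at hcond'
      exact hcond'
    refine ⟨?_, ?_, ?_⟩
    · calc min (1 / (8 * v₁)) (min (1 / Cn) (c₁ / Cn)) * δ * L ^ n
          ≤ 1 / (8 * v₁) * δ * L ^ n := by
            gcongr
            exact min_le_left _ _
        _ = δ / (8 * v₁) * L ^ n := by ring
        _ ≤ N := hNlo
    · calc min (1 / (8 * v₁)) (min (1 / Cn) (c₁ / Cn)) * N ≤ 1 / Cn * (Cn * δ * L ^ n) := by
            apply mul_le_mul ((min_le_right _ _).trans (min_le_left _ _)) hNhi hN0 (by positivity)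
        _ = δ * L ^ n := by field_simp
    · calc min (1 / (8 * v₁)) (min (1 / Cn) (c₁ / Cn)) * N ≤ c₁ / Cn * (Cn * δ * L ^ n) := by
            apply mul_le_mul ((min_le_right _ _).trans (min_le_right _ _)) hNhi hN0 (by positivity)
        _ = c₁ * δ * L ^ n := by field_simp
        _ ≤ condN Ψ' := hcN
        _ ≤ condN Ψ + ε' := hΨc
        _ ≤ condN Ψ + ε := by
            have := min_le_left ε (tol * L ^ n / 2)
            linarith
  exact ⟨(red 1 one_pos).1, (red 1 one_pos).2.1,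
    le_of_forall_pos_le_add fun ε hε => (red ε hε).2.2⟩

end

end Pool.Agent.W761.CB
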