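import Pool.Agent.W761.CB.Defs

/-!
# Condensation in the continuum: statements of the parts, foundations
-/

set_option autoImplicit false

open MeasureTheory
open scoped ENNReal

namespace Pool.Agent.W761.CB

/-- measurability of the operations on configurations -/
def S_MS : Prop := ∀ (X : Type) [MeasurableSpace X],
  Measurable (fun p : X × Cf X => cs p.1 p.2) ∧
  Measurable (fun p : Cf X × Cf X => ap p.1 p.2) ∧
  (∀ (P : Type) [MeasurableSpace P] (w : P → X → ℂ), Measurable (fun q : P × X => w q.1 q.2) →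
    Measurable fun q : P × Cf X => ((ms q.2).map (w q.1)).prod) ∧
  (∀ (P : Type) [MeasurableSpace P] (w : P → X → ℝ), Measurable (fun q : P × X => w q.1 q.2) →
    Measurable fun q : P × Cf X => ((ms q.2).map (w q.1)).sum) ∧
  (∀ (P : Type) [MeasurableSpace P] (w : P → X → ℝ≥0∞), Measurable (fun q : P × X => w q.1 q.2) →
    Measurable fun q : P × Cf X => ((ms q.2).map (w q.1)).sum) ∧
  (∀ (P : Type) [MeasurableSpace P] (h : P → Multiset X → Multiset X → ℂ),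
    Measurable (fun q : P × Cf X × Cf X => h q.1 (ms q.2.1) (ms q.2.2)) →
    Measurable fun q : P × Cf X => ((ms q.2).antidiagonal.map fun s => h q.1 s.1 s.2).sum) ∧
  (∀ (P : Type) [MeasurableSpace P] (h : P → Multiset X → Multiset X → ℝ≥0∞),
    Measurable (fun q : P × Cf X × Cf X => h q.1 (ms q.2.1) (ms q.2.2)) →
    Measurable fun q : P × Cf X => ((ms q.2).antidiagonal.map fun s => h q.1 s.1 s.2).sum)

/-- the measure on configurations -/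
def S_LAM : Prop := ∀ (X : Type) [MeasurableSpace X] (ν : Measure X) [IsFiniteMeasure ν],
  (∀ g : Cf X → ℝ≥0∞, Measurable g → ∫⁻ γ, g γ ∂(lam ν) =
    ∑' N : ℕ, (N.factorial : ℝ≥0∞)⁻¹ * ∫⁻ x : Fin N → X, g ⟨N, x⟩ ∂(Measure.pi fun _ => ν)) ∧
  IsFiniteMeasure (lam ν) ∧
  (∀ C c : ℝ, 0 ≤ C → 0 ≤ c → ∫⁻ γ, ENNReal.ofReal (C * c ^ Multiset.card (ms γ)) ∂(lam ν) =
    ENNReal.ofReal (C * Real.exp (c * (ν Set.univ).toReal))) ∧
  (∀ F G : Multiset X → ℂ, EB F → EB G → Integrable (fun γ => F (ms γ) * G (ms γ)) (lam ν)) ∧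
  (∀ F : Multiset X → ℂ, EB F → nE ν F < ⊤) ∧
  (∀ (g : X → ℂ), Measurable g → (∃ C : ℝ, ∀ x, ‖g x‖ ≤ C) →
    Integrable (fun γ => ((ms γ).map g).prod) (lam ν) ∧
    ∫ γ, ((ms γ).map g).prod ∂(lam ν) = Complex.exp (∫ x, g x ∂ν))

/-- the Mecke formula -/
def S_MECKE : Prop := ∀ (X : Type) [MeasurableSpace X] (ν : Measure X) [IsFiniteMeasure ν]
    (h : X → Multiset X → ℝ≥0∞), Measurable (fun p : X × Cf X => h p.1 (ms p.2)) →
  ∫⁻ γ, ((ms γ).map fun x => h x (ms γ)).sum ∂(lam ν) =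
    ∫⁻ x, ∫⁻ γ, h x (x ::ₘ ms γ) ∂(lam ν) ∂ν

/-- sums over the decompositions of a configuration in two parts -/
def S_AD : Prop := ∀ (X : Type) [MeasurableSpace X] (ν : Measure X) [IsFiniteMeasure ν],
  (∀ h : Multiset X → Multiset X → ℝ≥0∞,
    Measurable (fun p : Cf X × Cf X => h (ms p.1) (ms p.2)) →
    ∫⁻ γ, ((ms γ).antidiagonal.map fun s => h s.1 s.2).sum ∂(lam ν) =
      ∫⁻ γ, ∫⁻ γ', h (ms γ) (ms γ') ∂(lam ν) ∂(lam ν)) ∧
  (∀ h : Multiset X → Multiset X → ℂ,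
    Measurable (fun p : Cf X × Cf X => h (ms p.1) (ms p.2)) →
    (∃ C c : ℝ, 0 ≤ C ∧ 0 ≤ c ∧
      ∀ A B, ‖h A B‖ ≤ C * c ^ (Multiset.card A + Multiset.card B)) →
    Integrable (fun p : Cf X × Cf X => h (ms p.1) (ms p.2)) ((lam ν).prod (lam ν)) ∧
    Integrable (fun γ => ((ms γ).antidiagonal.map fun s => h s.1 s.2).sum) (lam ν) ∧
    ∫ γ, ((ms γ).antidiagonal.map fun s => h s.1 s.2).sum ∂(lam ν) =
      ∫ γ, ∫ γ', h (ms γ) (ms γ') ∂(lam ν) ∂(lam ν))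

/-- closure properties of the class `EB` -/
def S_EBC : Prop := ∀ (X : Type) [MeasurableSpace X] (ν : Measure X) [IsFiniteMeasure ν]
    (F G : Multiset X → ℂ), EB F → EB G →
  (∀ x, EB (an x F)) ∧ EB (absv F) ∧ (∀ a b : ℂ, EB fun S => a * F S + b * G S) ∧
  (∀ g : X → ℝ, Measurable g → (∃ C : ℝ, ∀ x, |g x| ≤ C) → EB (ag ν g F)) ∧
  Measurable (fun p : X × Cf X => F (p.1 ::ₘ ms p.2)) ∧
  Measurable (fun p : (X × X) × Cf X => F (p.1.1 ::ₘ p.1.2 ::ₘ ms p.2)) ∧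
  Measurable (fun p : Cf X × Cf X => F (ms p.1 + ms p.2)) ∧
  (∃ C c : ℝ, 0 ≤ C ∧ 1 ≤ c ∧ ∀ x S, ‖F (x ::ₘ S)‖ ≤ C * c ^ Multiset.card S) ∧
  Measurable (fun x => nE ν (an x F)) ∧ Measurable (fun p : X × X => dE ν F p.1 p.2) ∧
  Measurable (fun p : X × X => nE ν (an p.2 (an p.1 F))) ∧
  (∃ C : ℝ≥0∞, C < ⊤ ∧ ∀ x y, nE ν (an x F) ≤ C ∧ dE ν F x y ≤ C ∧
    nE ν (an y (an x F)) ≤ C)

end Pool.Agent.W761.CB
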